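import Mathlib
import Pool.Agent.helper56.SGE.Defs

/-! # Parsing prefix codes by counting -/

set_option autoImplicit false

namespace Pool.Agent.helper98.Tsei

open Pool.Agent.helper56.SGE

/-- letters of a number -/
def numToks (n : ℕ) : List ℕ := n.bits.map (fun b => if b then 2 else 1) ++ [0]

lemma numCode_eq (n : ℕ) : numCode n = (numToks n).flatMap letter := by
  unfold numCode numToks
  rw [List.flatMap_append, List.flatMap_map]
  simp

/-- letters of a term -/
def tmToks : Tm → List ℕ
  | .var i => 3 :: numToks i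
  | .num n => 4 :: numToks n
  | .add a b => 5 :: (tmToks a ++ tmToks b)
  | .sub a b => 6 :: (tmToks a ++ tmToks b)
  | .mul a b => 7 :: (tmToks a ++ tmToks b)

/-- letters of a formula -/
def fmToks : Fml → List ℕ
  | .lt a b => 8 :: (tmToks a ++ tmToks b)
  | .eq a b => 9 :: (tmToks a ++ tmToks b)
  | .not a => 10 :: fmToks a
  | .and a b => 11 :: (fmToks a ++ fmToks b)
  | .or a b => 12 :: (fmToks a ++ fmToks b)

lemma tmCode_eq (t : Tm) : t.code = (tmToks t).flatMap letter := by
  induction t with
  | var i => simp [Tm.code, tmToks, numCode_eq]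
  | num i => simp [Tm.code, tmToks, numCode_eq]
  | add a b iha ihb => simp [Tm.code, tmToks, iha, ihb]
  | sub a b iha ihb => simp [Tm.code, tmToks, iha, ihb]
  | mul a b iha ihb => simp [Tm.code, tmToks, iha, ihb]

lemma fmCode_eq (t : Fml) : t.code = (fmToks t).flatMap letter := by
  induction t with
  | lt a b => simp [Fml.code, fmToks, tmCode_eq]
  | eq a b => simp [Fml.code, fmToks, tmCode_eq]
  | not a ih => simp [Fml.code, fmToks, ih]
  | and a b iha ihb => simp [Fml.code, fmToks, iha, ihb]
  | or a b iha ihb => simp [Fml.code, fmToks, iha, ihb]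

/-- weight of a letter: one minus the number of arguments -/
def wt (k : ℕ) : ℤ :=
  if k = 0 then 1 else if k = 1 ∨ k = 2 ∨ k = 3 ∨ k = 4 ∨ k = 10 then 0 else -1

/-- total weight of a list -/
def ws (l : List ℕ) : ℤ := (l.map wt).sum

lemma ws_nil : ws [] = 0 := rfl
lemma ws_cons (a : ℕ) (l : List ℕ) : ws (a :: l) = wt a + ws l := by simp [ws]
lemma ws_append (l m : List ℕ) : ws (l ++ m) = ws l + ws m := by simp [ws]

/-- balanced lists: total weight one, proper prefixes have nonpositive weight -/
def Bal (l : List ℕ) : Prop := ws l = 1 ∧ ∀ k < l.length, ws (l.take k) ≤ 0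

lemma Bal.pos {l : List ℕ} (h : Bal l) : 0 < l.length := by
  rcases Nat.eq_zero_or_pos l.length with h0 | h0
  · rw [List.length_eq_zero_iff] at h0
    rw [h0] at h
    have := h.1
    simp [ws] at this
  · exact h0

lemma bal_leaf : Bal [0] := by
  refine ⟨by simp [ws, wt], fun k hk => ?_⟩
  have : k = 0 := by simpa using hk
  subst this
  simp [ws]

lemma bal_unary (a : ℕ) (ha : wt a = 0) {l : List ℕ} (h : Bal l) : Bal (a :: l) := by
  refine ⟨by rw [ws_cons, ha, h.1]; rfl, fun k hk => ?_⟩
  cases k with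
  | zero => simp [ws]
  | succ k =>
    rw [List.take_succ_cons, ws_cons, ha, zero_add]
    exact h.2 k (by simpa using hk)

lemma bal_binary (a : ℕ) (ha : wt a = -1) {l m : List ℕ} (h : Bal l) (h' : Bal m) :
    Bal (a :: (l ++ m)) := by
  refine ⟨by rw [ws_cons, ws_append, ha, h.1, h'.1]; rfl, fun k hk => ?_⟩
  cases k with
  | zero => simp [ws]
  | succ k =>
    rw [List.take_succ_cons, ws_cons, ha, List.take_append, ws_append]
    rw [List.length_cons, List.length_append] at hk
    rcases Nat.lt_or_ge k l.length with h1 | h1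
    · have e1 : k - l.length = 0 := by omega
      rw [e1, List.take_zero, ws_nil]
      have := h.2 k h1
      omega
    · have e1 : List.take k l = l := List.take_of_length_le h1
      rw [e1, h.1]
      have := h'.2 (k - l.length) (by omega)
      omega

lemma numToks_zero : numToks 0 = [0] := by simp [numToks]

lemma numToks_odd (n : ℕ) : numToks (2 * n + 1) = 2 :: numToks n := by
  simp [numToks, Nat.bit1_bits]

lemma numToks_even (n : ℕ) (hn : n ≠ 0) : numToks (2 * n) = 1 :: numToks n := by
  simp [numToks, Nat.bit0_bits n hn]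

/-- induction on binary digits -/
lemma num_ind {motive : ℕ → Prop} (h0 : motive 0) (h1 : ∀ n, motive n → motive (2 * n + 1))
    (h2 : ∀ n, n ≠ 0 → motive n → motive (2 * n)) : ∀ n, motive n := by
  intro n
  induction n using Nat.strong_induction_on with
  | _ n ih =>
    rcases Nat.eq_zero_or_pos n with h | h
    · rw [h]; exact h0
    · rcases Nat.even_or_odd' n with ⟨k, hk | hk⟩
      · rw [hk]; exact h2 k (by omega) (ih k (by omega))
      · rw [hk]; exact h1 k (ih k (by omega))

lemma numBal (n : ℕ) : Bal (numToks n) := by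
  induction n using num_ind with
  | h0 => rw [numToks_zero]; exact bal_leaf
  | h1 n ih => rw [numToks_odd]; exact bal_unary 2 (by simp [wt]) ih
  | h2 n hn ih => rw [numToks_even n hn]; exact bal_unary 1 (by simp [wt]) ih

lemma tmBal (t : Tm) : Bal (tmToks t) := by
  induction t with
  | var i => exact bal_unary 3 (by simp [wt]) (numBal i)
  | num i => exact bal_unary 4 (by simp [wt]) (numBal i)
  | add s t ih ih' => exact bal_binary 5 (by simp [wt]) ih ih'
  | sub s t ih ih' => exact bal_binary 6 (by simp [wt]) ih ih'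
  | mul s t ih ih' => exact bal_binary 7 (by simp [wt]) ih ih'

lemma fmBal (f : Fml) : Bal (fmToks f) := by
  induction f with
  | lt s t => exact bal_binary 8 (by simp [wt]) (tmBal s) (tmBal t)
  | eq s t => exact bal_binary 9 (by simp [wt]) (tmBal s) (tmBal t)
  | not f ih => exact bal_unary 10 (by simp [wt]) ih
  | and f g ih ih' => exact bal_binary 11 (by simp [wt]) ih ih'
  | or f g ih ih' => exact bal_binary 12 (by simp [wt]) ih ih'

/-- the list `l` is read from position `j` on -/
def Seg (tok : ℕ → ℕ) (j : ℕ) (l : List ℕ) : Prop := ∀ i, (h : i < l.length) → tok (j + i) = l[i]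

lemma seg_cons {tok : ℕ → ℕ} {j a : ℕ} {l : List ℕ} :
    Seg tok j (a :: l) ↔ tok j = a ∧ Seg tok (j + 1) l := by
  constructor
  · intro h
    refine ⟨h 0 (by simp), fun i hi => ?_⟩
    have := h (i + 1) (by simpa using hi)
    rw [List.getElem_cons_succ] at this
    rw [← this]
    congr 1
    omega
  · rintro ⟨h1, h2⟩ i hi
    cases i with
    | zero => simpa using h1
    | succ i =>
      rw [List.getElem_cons_succ, ← h2 i (by simpa using hi)]
      congr 1
      omega

lemma seg_nil {tok : ℕ → ℕ} {j : ℕ} : Seg tok j [] := fun i h => by simp at h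

lemma seg_append {tok : ℕ → ℕ} {l m : List ℕ} : ∀ {j : ℕ},
    Seg tok j (l ++ m) ↔ Seg tok j l ∧ Seg tok (j + l.length) m := by
  induction l with
  | nil => intro j; simp [seg_nil]
  | cons a l ih =>
    intro j
    rw [List.cons_append, seg_cons, seg_cons, ih, List.length_cons, and_assoc]
    have : j + 1 + l.length = j + (l.length + 1) := by omega
    rw [this]

/-- partial weights -/
def pw (tok : ℕ → ℕ) (k : ℕ) : ℤ := ∑ i ∈ Finset.range k, wt (tok i)

lemma pw_succ (tok : ℕ → ℕ) (k : ℕ) : pw tok (k + 1) = pw tok k + wt (tok k) := by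
  simp [pw, Finset.sum_range_succ]

lemma pw_seg {tok : ℕ → ℕ} {l : List ℕ} : ∀ {j : ℕ}, Seg tok j l → ∀ k ≤ l.length,
    pw tok (j + k) = pw tok j + ws (l.take k) := by
  intro j h k
  induction k with
  | zero => intro _; simp [ws]
  | succ k ih =>
    intro hk
    have hk' : k < l.length := by omega
    rw [← add_assoc, pw_succ, ih (by omega), h k hk', List.take_succ_eq_append_getElem hk',
      ws_append]
    simp [ws]
    ring

/-- end of the subterm starting at `j` -/
def nxt (tok : ℕ → ℕ) (L j : ℕ) : ℕ :=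
  j + 1 + ((Finset.range L).filter (fun t => ∀ t' < t + 1, ¬ pw tok (j + 1 + t') = pw tok j + 1)).card

lemma lt_nxt (tok : ℕ → ℕ) (L j : ℕ) : j < nxt tok L j := by unfold nxt; omega

lemma nxt_eq {tok : ℕ → ℕ} {L j k : ℕ} (hjk : j < k) (hkL : k ≤ j + L)
    (hk : pw tok k = pw tok j + 1) (hmin : ∀ k', j < k' → k' < k → pw tok k' ≠ pw tok j + 1) :
    nxt tok L j = k := by
  unfold nxt
  have : (Finset.range L).filter (fun t => ∀ t' < t + 1, ¬ pw tok (j + 1 + t') = pw tok j + 1) =
      Finset.range (k - j - 1) := by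
    ext t
    simp only [Finset.mem_filter, Finset.mem_range]
    constructor
    · rintro ⟨_, h⟩
      by_contra hcon
      push Not at hcon
      apply h (k - j - 1) (by omega)
      have e : j + 1 + (k - j - 1) = k := by omega
      rw [e, hk]
    · intro ht
      refine ⟨by omega, fun t' ht' => ?_⟩
      exact hmin (j + 1 + t') (by omega) (by omega)
  rw [this, Finset.card_range]
  omega

lemma nxt_seg {tok : ℕ → ℕ} {L j : ℕ} {l : List ℕ} (h : Seg tok j l) (hb : Bal l)
    (hL : l.length ≤ L) : nxt tok L j = j + l.length := by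
  have hpos := hb.pos
  apply nxt_eq
  · omega
  · omega
  · rw [pw_seg h l.length le_rfl, List.take_length, hb.1]
  · intro k' h1 h2
    have h3 : pw tok (j + (k' - j)) = pw tok j + ws (l.take (k' - j)) :=
      pw_seg h (k' - j) (by omega)
    have e : j + (k' - j) = k' := by omega
    rw [e] at h3
    rw [h3]
    have := hb.2 (k' - j) (by omega)
    omega

/-- local correctness at a position -/
structure Loc (tok : ℕ → ℕ) (L i : ℕ) : Prop where
  bound : tok i ≤ 12
  t1 : tok i = 1 → 1 ≤ tok (i + 1)
  t2 : 1 ≤ tok i → tok i ≤ 4 → tok (i + 1) ≤ 2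
  t5 : 5 ≤ tok i → tok i ≤ 9 → (3 ≤ tok (i + 1) ∧ tok (i + 1) ≤ 7) ∧
    (3 ≤ tok (nxt tok L (i + 1)) ∧ tok (nxt tok L (i + 1)) ≤ 7)
  t10 : tok i = 10 → 8 ≤ tok (i + 1)
  t11 : 11 ≤ tok i → 8 ≤ tok (i + 1) ∧ 8 ≤ tok (nxt tok L (i + 1))

/-- syntactic correctness of a letter sequence of length `L` as a code of a formula -/
structure WF (tok : ℕ → ℕ) (L : ℕ) : Prop where
  pos : 0 < L
  total : pw tok L = 1
  part : ∀ k < L, pw tok k ≤ 0
  root : 8 ≤ tok 0
  loc : ∀ i < L, Loc tok L i

lemma seg_head {tok : ℕ → ℕ} {j : ℕ} {l : List ℕ} (h : Seg tok j l) (h0 : 0 < l.length) :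
    tok j = l[0] := by
  have := h 0 h0
  simpa using this

lemma numHead (n : ℕ) (h : 0 < (numToks n).length) : (numToks n)[0] ≤ 2 := by
  induction n using num_ind with
  | h0 => simp [numToks_zero]
  | h1 n _ => simp [numToks_odd]
  | h2 n hn _ => simp [numToks_even n hn]

lemma numHead' (n : ℕ) (hn : n ≠ 0) (h : 0 < (numToks n).length) : 1 ≤ (numToks n)[0] := by
  induction n using num_ind with
  | h0 => exact absurd rfl hn
  | h1 n _ => simp [numToks_odd]
  | h2 n hn0 _ => simp [numToks_even n hn0]

lemma tmHead (t : Tm) (h : 0 < (tmToks t).length) : 3 ≤ (tmToks t)[0] ∧ (tmToks t)[0] ≤ 7 := by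
  cases t <;> simp [tmToks]

lemma fmHead (f : Fml) (h : 0 < (fmToks f).length) : 8 ≤ (fmToks f)[0] := by
  cases f <;> simp [fmToks]

lemma loc_range_cons {tok : ℕ → ℕ} {L j a : ℕ} {l : List ℕ} (h0 : Loc tok L j)
    (h1 : ∀ i, j + 1 ≤ i → i < j + 1 + l.length → Loc tok L i) :
    ∀ i, j ≤ i → i < j + (a :: l).length → Loc tok L i := by
  intro i hi hi'
  rcases Nat.eq_or_lt_of_le hi with h | h
  · rw [← h]; exact h0
  · exact h1 i h (by simp at hi'; omega)

lemma loc_range_append {tok : ℕ → ℕ} {L j : ℕ} {l m : List ℕ}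
    (h0 : ∀ i, j ≤ i → i < j + l.length → Loc tok L i)
    (h1 : ∀ i, j + l.length ≤ i → i < j + l.length + m.length → Loc tok L i) :
    ∀ i, j ≤ i → i < j + (l ++ m).length → Loc tok L i := by
  intro i hi hi'
  rcases Nat.lt_or_ge i (j + l.length) with h | h
  · exact h0 i hi h
  · exact h1 i h (by simp at hi'; omega)

/-- all positions of a segment are locally correct -/
def LocRange (tok : ℕ → ℕ) (L j : ℕ) (l : List ℕ) : Prop :=
  ∀ i, j ≤ i → i < j + l.length → Loc tok L i

lemma num_loc {tok : ℕ → ℕ} {L : ℕ} (n : ℕ) : ∀ {j : ℕ}, Seg tok j (numToks n) →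
    LocRange tok L j (numToks n) := by
  induction n using num_ind with
  | h0 =>
    intro j h i hi hi'
    rw [numToks_zero] at h hi'
    have e : i = j := by simp at hi'; omega
    subst e
    have ht : tok i = 0 := by
      have := seg_head h (by simp)
      simpa using this
    exact ⟨by omega, by omega, by omega, by omega, by omega, by omega⟩
  | h1 n ih =>
    intro j h
    rw [numToks_odd] at h ⊢
    obtain ⟨h0, h1⟩ := seg_cons.1 h
    apply loc_range_cons _ (ih h1)
    refine ⟨by omega, by omega, fun _ _ => ?_, by omega, by omega, by omega⟩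
    rw [seg_head h1 (numBal n).pos]; exact numHead n _
  | h2 n hn ih =>
    intro j h
    rw [numToks_even n hn] at h ⊢
    obtain ⟨h0, h1⟩ := seg_cons.1 h
    apply loc_range_cons _ (ih h1)
    refine ⟨by omega, fun _ => ?_, fun _ _ => ?_, by omega, by omega, by omega⟩
    · rw [seg_head h1 (numBal n).pos]; exact numHead' n hn _
    · rw [seg_head h1 (numBal n).pos]; exact numHead n _

lemma bin_locT {tok : ℕ → ℕ} {L : ℕ} (a : ℕ) (s t : Tm) (j : ℕ) (ha : 5 ≤ a) (ha' : a ≤ 9)
    (ihs : ∀ {j : ℕ}, Seg tok j (tmToks s) → (tmToks s).length ≤ L → LocRange tok L j (tmToks s))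
    (iht : ∀ {j : ℕ}, Seg tok j (tmToks t) → (tmToks t).length ≤ L → LocRange tok L j (tmToks t))
    (h : Seg tok j (a :: (tmToks s ++ tmToks t)))
    (hL : (a :: (tmToks s ++ tmToks t)).length ≤ L) :
    LocRange tok L j (a :: (tmToks s ++ tmToks t)) := by
  have hL' : (tmToks s).length + (tmToks t).length + 1 ≤ L := by simpa using hL
  obtain ⟨h0, h1⟩ := seg_cons.1 h
  obtain ⟨h2, h3⟩ := seg_append.1 h1
  have hn : nxt tok L (j + 1) = j + 1 + (tmToks s).length := nxt_seg h2 (tmBal s) (by omega)
  apply loc_range_cons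
  · refine ⟨by omega, by omega, by omega, fun _ _ => ⟨?_, ?_⟩, by omega, by omega⟩
    · rw [seg_head h2 (tmBal s).pos]; exact tmHead s _
    · rw [hn, seg_head h3 (tmBal t).pos]; exact tmHead t _
  · exact loc_range_append (ihs h2 (by omega)) (iht h3 (by omega))

lemma tm_loc {tok : ℕ → ℕ} {L : ℕ} (t : Tm) : ∀ {j : ℕ}, Seg tok j (tmToks t) →
    (tmToks t).length ≤ L → LocRange tok L j (tmToks t) := by
  induction t with
  | var n =>
    intro j h _
    obtain ⟨h0, h1⟩ := seg_cons.1 h
    apply loc_range_cons _ (num_loc n h1)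
    refine ⟨by omega, by omega, fun _ _ => ?_, by omega, by omega, by omega⟩
    rw [seg_head h1 (numBal n).pos]; exact numHead n _
  | num n =>
    intro j h _
    obtain ⟨h0, h1⟩ := seg_cons.1 h
    apply loc_range_cons _ (num_loc n h1)
    refine ⟨by omega, by omega, fun _ _ => ?_, by omega, by omega, by omega⟩
    rw [seg_head h1 (numBal n).pos]; exact numHead n _
  | add s t ihs iht =>
    intro j h hL
    exact bin_locT 5 s t j (by norm_num) (by norm_num) ihs iht h hL
  | sub s t ihs iht =>
    intro j h hL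
    exact bin_locT 6 s t j (by norm_num) (by norm_num) ihs iht h hL
  | mul s t ihs iht =>
    intro j h hL
    exact bin_locT 7 s t j (by norm_num) (by norm_num) ihs iht h hL

lemma fm_loc {tok : ℕ → ℕ} {L : ℕ} (f : Fml) : ∀ {j : ℕ}, Seg tok j (fmToks f) →
    (fmToks f).length ≤ L → LocRange tok L j (fmToks f) := by
  have binary : ∀ (a : ℕ) (s t : Fml) (j : ℕ), 11 ≤ a → a ≤ 12 →
      (∀ {j : ℕ}, Seg tok j (fmToks s) → (fmToks s).length ≤ L → LocRange tok L j (fmToks s)) →
      (∀ {j : ℕ}, Seg tok j (fmToks t) → (fmToks t).length ≤ L → LocRange tok L j (fmToks t)) →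
      Seg tok j (a :: (fmToks s ++ fmToks t)) → (a :: (fmToks s ++ fmToks t)).length ≤ L →
      LocRange tok L j (a :: (fmToks s ++ fmToks t)) := by
    intro a s t j ha ha' ihs iht h hL
    have hL' : (fmToks s).length + (fmToks t).length + 1 ≤ L := by simpa using hL
    obtain ⟨h0, h1⟩ := seg_cons.1 h
    obtain ⟨h2, h3⟩ := seg_append.1 h1
    have hn : nxt tok L (j + 1) = j + 1 + (fmToks s).length := nxt_seg h2 (fmBal s) (by omega)
    apply loc_range_cons
    · refine ⟨by omega, by omega, by omega, by omega, by omega, fun _ => ⟨?_, ?_⟩⟩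
      · rw [seg_head h2 (fmBal s).pos]; exact fmHead s _
      · rw [hn, seg_head h3 (fmBal t).pos]; exact fmHead t _
    · exact loc_range_append (ihs h2 (by omega)) (iht h3 (by omega))
  induction f with
  | lt s t =>
    intro j h hL
    exact bin_locT 8 s t j (by norm_num) (by norm_num) (tm_loc s) (tm_loc t) h hL
  | eq s t =>
    intro j h hL
    exact bin_locT 9 s t j (by norm_num) (by norm_num) (tm_loc s) (tm_loc t) h hL
  | not f ih =>
    intro j h hL
    have hL' : (fmToks f).length + 1 ≤ L := by simpa [fmToks] using hL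
    obtain ⟨h0, h1⟩ := seg_cons.1 h
    apply loc_range_cons _ (ih h1 (by omega))
    refine ⟨by omega, by omega, by omega, by omega, fun _ => ?_, by omega⟩
    rw [seg_head h1 (fmBal f).pos]; exact fmHead f _
  | and s t ihs iht =>
    intro j h hL
    exact binary 11 s t j (by norm_num) (by norm_num) ihs iht h hL
  | or s t ihs iht =>
    intro j h hL
    exact binary 12 s t j (by norm_num) (by norm_num) ihs iht h hL

theorem wf_of_code {tok : ℕ → ℕ} (f : Fml) (h : Seg tok 0 (fmToks f)) :
    WF tok (fmToks f).length := by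
  have hb := fmBal f
  have hloc := fun i (hi : i < (fmToks f).length) =>
    fm_loc f h le_rfl i (Nat.zero_le _) (by omega)
  have hp : ∀ k ≤ (fmToks f).length, pw tok k = ws ((fmToks f).take k) := by
    intro k hk
    have := pw_seg h k hk
    simpa [pw] using this
  refine ⟨hb.pos, ?_, ?_, ?_, hloc⟩
  · rw [hp _ le_rfl, List.take_length, hb.1]
  · intro k hk
    rw [hp k hk.le]
    exact hb.2 k hk
  · rw [seg_head h hb.pos]; exact fmHead f _

end Pool.Agent.helper98.Tsei
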