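import Mathlib
import Pool.Agent.helper98.Tsei.Parse
import Pool.Agent.helper56.SGE.Arith

/-! # Local equations describing the truth of a formula -/

set_option autoImplicit false

namespace Pool.Agent.helper98.Tsei

open Pool.Agent.helper56.SGE Pool.Agent.helper56.SGE.QSys

/-- The equations attached to a letter. The terms of an equation `y0 * y1 + y2 - y3 = 0` are
described as follows: `0` and `1` are constants, `2 + s`, `18 + s`, `34 + s` with `s < 16` are the
slots `s` of the position itself, of its first argument, of its second argument. Slot 0 is the value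
and slot 1 the co-value. -/
def tab : List (List (List ℕ)) := [
  [[2, 1, 0, 0]],
  [[18, 1, 18, 4], [4, 1, 0, 2]],
  [[18, 1, 18, 4], [4, 1, 1, 2]],
  [],
  [[18, 1, 0, 2]],
  [[18, 1, 34, 2]],
  [[2, 1, 34, 18]],
  [[18, 34, 0, 2]],
  [[7, 1, 18, 34], [4, 4, 0, 6], [6, 7, 0, 5], [2, 1, 1, 5], [8, 8, 0, 9], [10, 1, 34, 18],
    [3, 1, 9, 10]],
  [[2, 1, 34, 18], [2, 4, 0, 5], [3, 1, 1, 5]],
  [[19, 1, 0, 2], [18, 1, 0, 3]],
  [[18, 18, 0, 6], [34, 34, 0, 5], [6, 1, 5, 2], [19, 35, 0, 3]],
  [[18, 34, 0, 2], [19, 19, 0, 6], [35, 35, 0, 5], [6, 1, 5, 3]]]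

/-- the term `c` of the equation `e` attached to the letter `t` -/
def desc (t e c : ℕ) : ℕ := ((tab.getD t []).getD e []).getD c 0

/-- the reference belonging to a description -/
def pref (i P Q D : ℕ) : ℕ :=
  if D < 2 then D else
    16 * (if (D - 2) / 16 = 0 then i else if (D - 2) / 16 = 1 then P else Q) + (D - 2) % 16 + 2

/-- the equation `e` attached to a position -/
noncomputable def leq (u : ℕ → ℝ) (i P Q t e : ℕ) : ℝ :=
  rval u (pref i P Q (desc t e 0)) * rval u (pref i P Q (desc t e 1)) +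
    rval u (pref i P Q (desc t e 2)) - rval u (pref i P Q (desc t e 3))

/-- two variable positions with the same digits -/
def Same (tok : ℕ → ℕ) (L i i' : ℕ) : Prop :=
  tok i = 3 ∧ nxt tok L i + i' = nxt tok L i' + i ∧ ∀ t < nxt tok L i - i, tok (i + t) = tok (i' + t)

/-- all equations -/
structure AllSat (u : ℕ → ℝ) (tok : ℕ → ℕ) (L : ℕ) : Prop where
  loc : ∀ i < L, ∀ e < 8, leq u i (i + 1) (nxt tok L (i + 1)) (tok i) e = 0
  pair : ∀ i < L, ∀ i' < L, Same tok L i i' → u (16 * i) = u (16 * i')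
  root : u 0 = 0

/-- the equations in explicit form -/
structure LS (u : ℕ → ℝ) (i P Q t : ℕ) : Prop where
  c0 : t = 0 → u (16 * i) = 0
  c1 : t = 1 → u (16 * i) = 2 * u (16 * P)
  c2 : t = 2 → u (16 * i) = 2 * u (16 * P) + 1
  c4 : t = 4 → u (16 * i) = u (16 * P)
  c5 : t = 5 → u (16 * i) = u (16 * P) + u (16 * Q)
  c6 : t = 6 → u (16 * i) = u (16 * P) - u (16 * Q)
  c7 : t = 7 → u (16 * i) = u (16 * P) * u (16 * Q)
  c8 : t = 8 → ∃ a e : ℝ, u (16 * i) = a * a * (u (16 * Q) - u (16 * P)) - 1 ∧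
    u (16 * i + 1) = (u (16 * P) - u (16 * Q)) - e * e
  c9 : t = 9 → ∃ a : ℝ, u (16 * i) = u (16 * P) - u (16 * Q) ∧ u (16 * i + 1) = u (16 * i) * a - 1
  c10 : t = 10 → u (16 * i) = u (16 * P + 1) ∧ u (16 * i + 1) = u (16 * P)
  c11 : t = 11 → u (16 * i) = u (16 * P) * u (16 * P) + u (16 * Q) * u (16 * Q) ∧
    u (16 * i + 1) = u (16 * P + 1) * u (16 * Q + 1)
  c12 : t = 12 → u (16 * i) = u (16 * P) * u (16 * Q) ∧
    u (16 * i + 1) = u (16 * P + 1) * u (16 * P + 1) + u (16 * Q + 1) * u (16 * Q + 1)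

lemma ls_of_leq {u : ℕ → ℝ} {i P Q t : ℕ} (h : ∀ e < 8, leq u i P Q t e = 0) : LS u i P Q t := by
  have h0 := h 0 (by norm_num)
  have h1 := h 1 (by norm_num)
  have h2 := h 2 (by norm_num)
  have h3 := h 3 (by norm_num)
  have h4 := h 4 (by norm_num)
  have h5 := h 5 (by norm_num)
  have h6 := h 6 (by norm_num)
  constructor
  · rintro rfl
    simp [leq, pref, desc, tab, rval] at h0
    exact h0
  · rintro rfl
    simp [leq, pref, desc, tab, rval] at h0 h1
    linarith
  · rintro rfl
    simp [leq, pref, desc, tab, rval] at h0 h1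
    linarith
  · rintro rfl
    simp [leq, pref, desc, tab, rval] at h0
    linarith
  · rintro rfl
    simp [leq, pref, desc, tab, rval] at h0
    linarith
  · rintro rfl
    simp [leq, pref, desc, tab, rval] at h0
    linarith
  · rintro rfl
    simp [leq, pref, desc, tab, rval] at h0
    linarith
  · rintro rfl
    simp [leq, pref, desc, tab, rval] at h0 h1 h2 h3 h4 h5 h6
    refine ⟨u (16 * i + 2), u (16 * i + 6), ?_, ?_⟩
    · have e1 : u (16 * i + 5) = u (16 * Q) - u (16 * P) := by linarith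
      have e2 : u (16 * i + 4) = u (16 * i + 2) * u (16 * i + 2) := by linarith
      rw [← e1, ← e2]
      linarith
    · have e1 : u (16 * i + 8) = u (16 * P) - u (16 * Q) := by linarith
      have e2 : u (16 * i + 7) = u (16 * i + 6) * u (16 * i + 6) := by linarith
      rw [← e1, ← e2]
      linarith
  · rintro rfl
    simp [leq, pref, desc, tab, rval] at h0 h1 h2
    exact ⟨u (16 * i + 2), by linarith, by linarith⟩
  · rintro rfl
    simp [leq, pref, desc, tab, rval] at h0 h1
    exact ⟨by linarith, by linarith⟩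
  · rintro rfl
    simp [leq, pref, desc, tab, rval] at h0 h1 h2 h3
    exact ⟨by linarith, by linarith⟩
  · rintro rfl
    simp [leq, pref, desc, tab, rval] at h0 h1 h2 h3
    exact ⟨by linarith, by linarith⟩

section parse

variable {tok : ℕ → ℕ} {L : ℕ}

lemma next_lt (hW : WF tok L) {i : ℕ} (hi : i < L) (hw : wt (tok i) ≤ 0) : i + 1 < L := by
  have hstep := pw_succ tok i
  have hpi := hW.part i hi
  rcases Nat.lt_or_ge (i + 1) L with h | h
  · exact h
  · exfalso
    have e : i + 1 = L := by omega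
    have := hW.total
    rw [← e, hstep] at this
    linarith

lemma second_lt (hW : WF tok L) {i : ℕ} (hi : i < L) (hw : wt (tok i) = -1) {l : List ℕ}
    (hs : Seg tok (i + 1) l) (hbal : Bal l) (hle : i + 1 + l.length ≤ L) :
    nxt tok L (i + 1) = i + 1 + l.length ∧ i + 1 + l.length < L := by
  have hstep := pw_succ tok i
  have hpi := hW.part i hi
  have h1 : nxt tok L (i + 1) = i + 1 + l.length := nxt_seg hs hbal (by omega)
  refine ⟨h1, ?_⟩
  rcases Nat.lt_or_ge (i + 1 + l.length) L with h | h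
  · exact h
  · exfalso
    have e : i + 1 + l.length = L := by omega
    have h2 := pw_seg hs l.length le_rfl
    rw [List.take_length, hbal.1, e, hW.total, hstep, hw] at h2
    linarith

theorem num_parse (hW : WF tok L) : ∀ d i, i < L → L - i ≤ d → tok i ≤ 2 →
    ∃ n, Seg tok i (numToks n) ∧ i + (numToks n).length ≤ L := by
  intro d
  induction d with
  | zero => intro i hi hd; omega
  | succ d ih =>
    intro i hi hd ht
    have hl := hW.loc i hi
    have cases3 : tok i = 0 ∨ tok i = 1 ∨ tok i = 2 := by omega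
    rcases cases3 with h | h | h
    · refine ⟨0, ?_, ?_⟩
      · rw [numToks_zero]; exact seg_cons.2 ⟨h, seg_nil⟩
      · rw [numToks_zero]; simpa using hi
    · have hP := next_lt hW hi (by rw [h]; simp [wt])
      obtain ⟨n, hn1, hn2⟩ := ih (i + 1) hP (by omega) (hl.t2 (by omega) (by omega))
      have hn0 : n ≠ 0 := by
        rintro rfl
        rw [numToks_zero] at hn1
        have h2 := (seg_cons.1 hn1).1
        have h3 := hl.t1 h
        omega
      refine ⟨2 * n, ?_, ?_⟩
      · rw [numToks_even n hn0]; exact seg_cons.2 ⟨h, hn1⟩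
      · rw [numToks_even n hn0, List.length_cons]; omega
    · have hP := next_lt hW hi (by rw [h]; simp [wt])
      obtain ⟨n, hn1, hn2⟩ := ih (i + 1) hP (by omega) (hl.t2 (by omega) (by omega))
      refine ⟨2 * n + 1, ?_, ?_⟩
      · rw [numToks_odd]; exact seg_cons.2 ⟨h, hn1⟩
      · rw [numToks_odd, List.length_cons]; omega

end parse

section sound

variable {u : ℕ → ℝ} {tok : ℕ → ℕ} {L : ℕ}

lemma num_val (hA : AllSat u tok L) (n : ℕ) : ∀ i, Seg tok i (numToks n) →
    i + (numToks n).length ≤ L → u (16 * i) = n := by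
  induction n using num_ind with
  | h0 =>
    intro i h hL
    rw [numToks_zero] at h hL
    have hi : i < L := by simp at hL; omega
    have := (ls_of_leq (hA.loc i hi)).c0 (seg_cons.1 h).1
    simpa using this
  | h1 n ih =>
    intro i h hL
    rw [numToks_odd] at h hL
    rw [List.length_cons] at hL
    obtain ⟨h0, h1⟩ := seg_cons.1 h
    have := (ls_of_leq (hA.loc i (by omega))).c2 h0
    rw [ih (i + 1) h1 (by omega)] at this
    rw [this]
    push_cast
    ring
  | h2 n hn ih =>
    intro i h hL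
    rw [numToks_even n hn] at h hL
    rw [List.length_cons] at hL
    obtain ⟨h0, h1⟩ := seg_cons.1 h
    have := (ls_of_leq (hA.loc i (by omega))).c1 h0
    rw [ih (i + 1) h1 (by omega)] at this
    rw [this]
    push_cast
    ring

open Classical in
/-- the valuation read off a solution -/
noncomputable def rho (u : ℕ → ℝ) (tok : ℕ → ℕ) (L : ℕ) : ℕ → ℝ := fun n =>
  if h : ∃ i, i < L ∧ tok i = 3 ∧ Seg tok (i + 1) (numToks n) then u (16 * h.choose) else 0

lemma rho_eq (hA : AllSat u tok L) {n i : ℕ} (hi : tok i = 3) (hs : Seg tok (i + 1) (numToks n))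
    (hL : i + 1 + (numToks n).length ≤ L) : rho u tok L n = u (16 * i) := by
  have hex : ∃ i, i < L ∧ tok i = 3 ∧ Seg tok (i + 1) (numToks n) := ⟨i, by omega, hi, hs⟩
  unfold rho
  rw [dif_pos hex]
  obtain ⟨h1, h2, h3⟩ := hex.choose_spec
  set j := hex.choose with hj
  have hsi : Seg tok i (3 :: numToks n) := seg_cons.2 ⟨hi, hs⟩
  have hsj : Seg tok j (3 :: numToks n) := seg_cons.2 ⟨h2, h3⟩
  have hb : Bal (3 :: numToks n) := bal_unary 3 (by simp [wt]) (numBal n)
  have hlen : (3 :: numToks n).length ≤ L := by rw [List.length_cons]; omega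
  have ni := nxt_seg hsi hb hlen
  have nj := nxt_seg hsj hb hlen
  apply hA.pair j h1 i (by omega)
  refine ⟨h2, by omega, fun t ht => ?_⟩
  have ht' : t < (3 :: numToks n).length := by omega
  rw [hsj t ht', hsi t ht']

lemma sumsq_zero {a b : ℝ} (h : a * a + b * b = 0) : a = 0 ∧ b = 0 := by
  constructor <;> nlinarith [mul_self_nonneg a, mul_self_nonneg b]

theorem sound_aux (hW : WF tok L) (hA : AllSat u tok L) : ∀ d i, i < L → L - i ≤ d →
    (3 ≤ tok i → tok i ≤ 7 → ∃ t : Tm, Seg tok i (tmToks t) ∧ i + (tmToks t).length ≤ L ∧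
      t.val (rho u tok L) = u (16 * i)) ∧
    (8 ≤ tok i → ∃ f : Fml, Seg tok i (fmToks f) ∧ i + (fmToks f).length ≤ L ∧
      (u (16 * i) = 0 → f.holds (rho u tok L)) ∧
      (u (16 * i + 1) = 0 → ¬ f.holds (rho u tok L))) := by
  intro d
  induction d with
  | zero => intro i hi hd; omega
  | succ d ih =>
    intro i hi hd
    have hl := hW.loc i hi
    have hs := ls_of_leq (hA.loc i hi)
    have hb := hl.bound
    have binT : wt (tok i) = -1 → (3 ≤ tok (i + 1) ∧ tok (i + 1) ≤ 7) ∧
        (3 ≤ tok (nxt tok L (i + 1)) ∧ tok (nxt tok L (i + 1)) ≤ 7) →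
        ∃ s t : Tm, Seg tok (i + 1) (tmToks s ++ tmToks t) ∧
          i + 1 + (tmToks s).length + (tmToks t).length ≤ L ∧
          s.val (rho u tok L) = u (16 * (i + 1)) ∧
          t.val (rho u tok L) = u (16 * nxt tok L (i + 1)) := by
      rintro hw ⟨h1, h2⟩
      have hP' := next_lt hW hi (by omega)
      obtain ⟨s, hs1, hs2, hs4⟩ := (ih (i + 1) hP' (by omega)).1 h1.1 h1.2
      obtain ⟨hq1, hq2⟩ := second_lt hW hi hw hs1 (tmBal s) hs2
      have hspos := (tmBal s).pos
      rw [hq1] at h2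
      have hd2 : L - (i + 1 + (tmToks s).length) ≤ d := by omega
      obtain ⟨t, ht1, ht2, ht4⟩ := (ih (i + 1 + (tmToks s).length) hq2 hd2).1 h2.1 h2.2
      refine ⟨s, t, seg_append.2 ⟨hs1, ht1⟩, ht2, hs4, ?_⟩
      rw [hq1]
      exact ht4
    have binF : wt (tok i) = -1 → 8 ≤ tok (i + 1) ∧ 8 ≤ tok (nxt tok L (i + 1)) →
        ∃ s t : Fml, Seg tok (i + 1) (fmToks s ++ fmToks t) ∧
          i + 1 + (fmToks s).length + (fmToks t).length ≤ L ∧
          (u (16 * (i + 1)) = 0 → s.holds (rho u tok L)) ∧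
          (u (16 * (i + 1) + 1) = 0 → ¬ s.holds (rho u tok L)) ∧
          (u (16 * nxt tok L (i + 1)) = 0 → t.holds (rho u tok L)) ∧
          (u (16 * nxt tok L (i + 1) + 1) = 0 → ¬ t.holds (rho u tok L)) := by
      rintro hw ⟨h1, h2⟩
      have hP' := next_lt hW hi (by omega)
      obtain ⟨s, hs1, hs2, hs3, hs4⟩ := (ih (i + 1) hP' (by omega)).2 h1
      obtain ⟨hq1, hq2⟩ := second_lt hW hi hw hs1 (fmBal s) hs2
      have hspos := (fmBal s).pos
      rw [hq1] at h2
      have hd2 : L - (i + 1 + (fmToks s).length) ≤ d := by omega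
      obtain ⟨t, ht1, ht2, ht3, ht4⟩ := (ih (i + 1 + (fmToks s).length) hq2 hd2).2 h2
      refine ⟨s, t, seg_append.2 ⟨hs1, ht1⟩, ht2, hs3, hs4, ?_, ?_⟩
      · rw [hq1]; exact ht3
      · rw [hq1]; exact ht4
    have cases13 : tok i = 0 ∨ tok i = 1 ∨ tok i = 2 ∨ tok i = 3 ∨ tok i = 4 ∨ tok i = 5 ∨
        tok i = 6 ∨ tok i = 7 ∨ tok i = 8 ∨ tok i = 9 ∨ tok i = 10 ∨ tok i = 11 ∨ tok i = 12 := by
      omega
    rcases cases13 with h | h | h | h | h | h | h | h | h | h | h | h | h
    · exact ⟨by omega, by omega⟩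
    · exact ⟨by omega, by omega⟩
    · exact ⟨by omega, by omega⟩
    · -- variable
      clear binT binF
      have hP' := next_lt hW hi (by rw [h]; simp [wt])
      obtain ⟨n, hn1, hn2⟩ := num_parse hW L (i + 1) hP' (by omega) (hl.t2 (by omega) (by omega))
      refine ⟨fun _ _ => ⟨Tm.var n, seg_cons.2 ⟨h, hn1⟩, ?_, ?_⟩, by omega⟩
      · simp only [tmToks, List.length_cons]; omega
      · exact rho_eq hA h hn1 hn2
    · -- number
      clear binT binF
      have hP' := next_lt hW hi (by rw [h]; simp [wt])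
      obtain ⟨n, hn1, hn2⟩ := num_parse hW L (i + 1) hP' (by omega) (hl.t2 (by omega) (by omega))
      refine ⟨fun _ _ => ⟨Tm.num n, seg_cons.2 ⟨h, hn1⟩, ?_, ?_⟩, by omega⟩
      · simp only [tmToks, List.length_cons]; omega
      · rw [hs.c4 h, num_val hA n (i + 1) hn1 hn2]
        rfl
    · obtain ⟨s, t, h2, h3, h4, h5⟩ := binT (by rw [h]; simp [wt]) (hl.t5 (by omega) (by omega))
      refine ⟨fun _ _ => ⟨Tm.add s t, seg_cons.2 ⟨h, h2⟩, ?_, ?_⟩, by omega⟩
      · simp only [tmToks, List.length_cons, List.length_append]; omega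
      · simp only [Tm.val, h4, h5, hs.c5 h]
    · obtain ⟨s, t, h2, h3, h4, h5⟩ := binT (by rw [h]; simp [wt]) (hl.t5 (by omega) (by omega))
      refine ⟨fun _ _ => ⟨Tm.sub s t, seg_cons.2 ⟨h, h2⟩, ?_, ?_⟩, by omega⟩
      · simp only [tmToks, List.length_cons, List.length_append]; omega
      · simp only [Tm.val, h4, h5, hs.c6 h]
    · obtain ⟨s, t, h2, h3, h4, h5⟩ := binT (by rw [h]; simp [wt]) (hl.t5 (by omega) (by omega))
      refine ⟨fun _ _ => ⟨Tm.mul s t, seg_cons.2 ⟨h, h2⟩, ?_, ?_⟩, by omega⟩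
      · simp only [tmToks, List.length_cons, List.length_append]; omega
      · simp only [Tm.val, h4, h5, hs.c7 h]
    · -- lt
      obtain ⟨s, t, h2, h3, h4, h5⟩ := binT (by rw [h]; simp [wt]) (hl.t5 (by omega) (by omega))
      obtain ⟨a, e, k1, k2⟩ := hs.c8 h
      refine ⟨by omega, fun _ => ⟨Fml.lt s t, seg_cons.2 ⟨h, h2⟩, ?_, ?_, ?_⟩⟩
      · simp only [fmToks, List.length_cons, List.length_append]; omega
      · intro h0
        simp only [Fml.holds, h4, h5]
        rw [h0] at k1
        by_contra hcon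
        push Not at hcon
        have := mul_nonpos_of_nonneg_of_nonpos (mul_self_nonneg a)
          (by linarith : u (16 * nxt tok L (i + 1)) - u (16 * (i + 1)) ≤ 0)
        linarith
      · intro h0
        simp only [Fml.holds, h4, h5]
        push Not
        have := mul_self_nonneg e
        linarith
    · -- eq
      obtain ⟨s, t, h2, h3, h4, h5⟩ := binT (by rw [h]; simp [wt]) (hl.t5 (by omega) (by omega))
      obtain ⟨a, k1, k2⟩ := hs.c9 h
      refine ⟨by omega, fun _ => ⟨Fml.eq s t, seg_cons.2 ⟨h, h2⟩, ?_, ?_, ?_⟩⟩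
      · simp only [fmToks, List.length_cons, List.length_append]; omega
      · intro h0
        simp only [Fml.holds, h4, h5]
        linarith
      · intro h0
        simp only [Fml.holds, h4, h5]
        intro heq
        have e0 : u (16 * i) = 0 := by linarith
        rw [e0, zero_mul, h0] at k2
        norm_num at k2
    · -- not
      clear binT binF
      have hP' := next_lt hW hi (by rw [h]; simp [wt])
      obtain ⟨s, hs1, hs2, hs3, hs4⟩ := (ih (i + 1) hP' (by omega)).2 (hl.t10 h)
      obtain ⟨k1, k2⟩ := hs.c10 h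
      refine ⟨by omega, fun _ => ⟨Fml.not s, seg_cons.2 ⟨h, hs1⟩, ?_, ?_, ?_⟩⟩
      · simp only [fmToks, List.length_cons]; omega
      · intro h0
        simp only [Fml.holds]
        exact hs4 (by rw [← k1]; exact h0)
      · intro h0
        simp only [Fml.holds, not_not]
        exact hs3 (by rw [← k2]; exact h0)
    · -- and
      obtain ⟨s, t, h2, h3, h4, h5, h6, h7⟩ := binF (by rw [h]; simp [wt]) (hl.t11 (by omega))
      obtain ⟨k1, k2⟩ := hs.c11 h
      refine ⟨by omega, fun _ => ⟨Fml.and s t, seg_cons.2 ⟨h, h2⟩, ?_, ?_, ?_⟩⟩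
      · simp only [fmToks, List.length_cons, List.length_append]; omega
      · intro h0
        simp only [Fml.holds]
        have := sumsq_zero (a := u (16 * (i + 1))) (b := u (16 * nxt tok L (i + 1)))
          (by rw [← k1, h0])
        exact ⟨h4 this.1, h6 this.2⟩
      · intro h0
        simp only [Fml.holds]
        rw [h0] at k2
        rcases mul_eq_zero.1 k2.symm with h8 | h8
        · exact fun h9 => h5 h8 h9.1
        · exact fun h9 => h7 h8 h9.2
    · -- or
      obtain ⟨s, t, h2, h3, h4, h5, h6, h7⟩ := binF (by rw [h]; simp [wt]) (hl.t11 (by omega))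
      obtain ⟨k1, k2⟩ := hs.c12 h
      refine ⟨by omega, fun _ => ⟨Fml.or s t, seg_cons.2 ⟨h, h2⟩, ?_, ?_, ?_⟩⟩
      · simp only [fmToks, List.length_cons, List.length_append]; omega
      · intro h0
        simp only [Fml.holds]
        rw [h0] at k1
        rcases mul_eq_zero.1 k1.symm with h8 | h8
        · exact Or.inl (h4 h8)
        · exact Or.inr (h6 h8)
      · intro h0
        simp only [Fml.holds]
        have := sumsq_zero (a := u (16 * (i + 1) + 1)) (b := u (16 * nxt tok L (i + 1) + 1))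
          (by rw [← k2, h0])
        rintro (h9 | h9)
        · exact h5 this.1 h9
        · exact h7 this.2 h9

theorem sound (hW : WF tok L) (hA : AllSat u tok L) :
    ∃ f : Fml, Seg tok 0 (fmToks f) ∧ (fmToks f).length = L ∧ f.holds (rho u tok L) := by
  obtain ⟨f, h1, h2, h3, _⟩ := (sound_aux hW hA L 0 hW.pos (by omega)).2 hW.root
  refine ⟨f, h1, ?_, h3 hA.root⟩
  by_contra hne
  have hlt : (fmToks f).length < L := by omega
  have h4 := pw_seg h1 (fmToks f).length le_rfl
  rw [List.take_length, (fmBal f).1, Nat.zero_add] at h4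
  have h5 := hW.part _ hlt
  have h6 : pw tok 0 = 0 := by simp [pw]
  linarith

end sound

end Pool.Agent.helper98.Tsei
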