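import Mathlib
import Pool.Agent.helper98.Tsei.Sem

/-! # A true formula gives a solution of the local equations -/

set_option autoImplicit false

namespace Pool.Agent.helper98.Tsei

open Pool.Agent.helper56.SGE Pool.Agent.helper56.SGE.QSys

variable (tok : ℕ → ℕ) (L : ℕ) (v : ℕ → ℝ)

/-- value of a digit string -/
def numv (i : ℕ) : ℕ :=
  if i < L then
    (if tok i = 1 then 2 * numv (i + 1) else if tok i = 2 then 2 * numv (i + 1) + 1 else 0)
  else 0
termination_by L - i

/-- value and co-value of a position -/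
noncomputable def dat (i : ℕ) : ℝ × ℝ :=
  if h : i < L then
    if tok i ≤ 2 then ((numv tok L i : ℝ), 0)
    else if tok i = 3 then (v (numv tok L (i + 1)), 0)
    else if tok i = 4 then ((numv tok L (i + 1) : ℝ), 0)
    else
      have : L - nxt tok L (i + 1) < L - i := by
        have := lt_nxt tok L (i + 1)
        omega
      let p := dat (i + 1)
      let q := dat (nxt tok L (i + 1))
      if tok i = 5 then (p.1 + q.1, 0)
      else if tok i = 6 then (p.1 - q.1, 0)
      else if tok i = 7 then (p.1 * q.1, 0)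
      else if tok i = 8 then
        ((Real.sqrt (q.1 - p.1))⁻¹ * (Real.sqrt (q.1 - p.1))⁻¹ * (q.1 - p.1) - 1,
          (p.1 - q.1) - Real.sqrt (p.1 - q.1) * Real.sqrt (p.1 - q.1))
      else if tok i = 9 then (p.1 - q.1, (p.1 - q.1) * (p.1 - q.1)⁻¹ - 1)
      else if tok i = 10 then (p.2, p.1)
      else if tok i = 11 then (p.1 * p.1 + q.1 * q.1, p.2 * q.2)
      else (p.1 * q.1, p.2 * p.2 + q.2 * q.2)
  else (0, 0)
termination_by L - i

/-- the slots of a position -/
noncomputable def slot (i s : ℕ) : ℝ :=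
  let p := dat tok L v (i + 1)
  let q := dat tok L v (nxt tok L (i + 1))
  let t := tok i
  if s = 0 then (dat tok L v i).1
  else if s = 1 then (dat tok L v i).2
  else if s = 2 then
    (if t ≤ 2 then p.1 + p.1 else if t = 8 then (Real.sqrt (q.1 - p.1))⁻¹ else (p.1 - q.1)⁻¹)
  else if s = 3 then
    (if t = 8 then (Real.sqrt (q.1 - p.1))⁻¹ * (Real.sqrt (q.1 - p.1))⁻¹ * (q.1 - p.1)
      else if t = 9 then (p.1 - q.1) * (p.1 - q.1)⁻¹ else if t = 11 then q.1 * q.1 else q.2 * q.2)
  else if s = 4 then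
    (if t = 8 then (Real.sqrt (q.1 - p.1))⁻¹ * (Real.sqrt (q.1 - p.1))⁻¹
      else if t = 11 then p.1 * p.1 else p.2 * p.2)
  else if s = 5 then q.1 - p.1
  else if s = 6 then Real.sqrt (p.1 - q.1)
  else if s = 7 then Real.sqrt (p.1 - q.1) * Real.sqrt (p.1 - q.1)
  else p.1 - q.1

/-- the solution -/
noncomputable def asg (n : ℕ) : ℝ := slot tok L v (n / 16) (n % 16)

lemma asg_slot (i s : ℕ) (hs : s < 16) : asg tok L v (16 * i + s) = slot tok L v i s := by
  unfold asg
  have h1 : (16 * i + s) / 16 = i := by omega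
  have h2 : (16 * i + s) % 16 = s := by omega
  rw [h1, h2]

lemma asg_zero (i : ℕ) : asg tok L v (16 * i) = (dat tok L v i).1 := by
  have := asg_slot tok L v i 0 (by norm_num)
  rw [Nat.add_zero] at this
  rw [this]
  simp [slot]

lemma asg_one (i : ℕ) : asg tok L v (16 * i + 1) = (dat tok L v i).2 := by
  rw [asg_slot tok L v i 1 (by norm_num)]
  simp [slot]

variable {tok L v}

lemma dat_num {i : ℕ} (hi : i < L) (h : tok i ≤ 2) : dat tok L v i = ((numv tok L i : ℝ), 0) := by
  rw [dat]
  simp [hi, h]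

lemma leq_all (hW : WF tok L) (i : ℕ) (hi : i < L) (e : ℕ) (he : e < 8) :
    leq (asg tok L v) i (i + 1) (nxt tok L (i + 1)) (tok i) e = 0 := by
  have hb := (hW.loc i hi).bound
  have a2 := asg_slot tok L v i 2 (by norm_num)
  have a3 := asg_slot tok L v i 3 (by norm_num)
  have a4 := asg_slot tok L v i 4 (by norm_num)
  have a5 := asg_slot tok L v i 5 (by norm_num)
  have a6 := asg_slot tok L v i 6 (by norm_num)
  have a7 := asg_slot tok L v i 7 (by norm_num)
  have a8 := asg_slot tok L v i 8 (by norm_num)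
  have z1 := asg_zero tok L v (i + 1)
  have z2 := asg_zero tok L v (nxt tok L (i + 1))
  have z3 := asg_one tok L v (i + 1)
  have z4 := asg_one tok L v (nxt tok L (i + 1))
  have z5 := asg_zero tok L v i
  have z6 := asg_one tok L v i
  have hnum : 1 ≤ tok i → tok i ≤ 4 → (dat tok L v (i + 1)).1 = (numv tok L (i + 1) : ℝ) := by
    intro h1 h2
    have hP := next_lt hW hi (by
      have : tok i = 1 ∨ tok i = 2 ∨ tok i = 3 ∨ tok i = 4 := by omega
      rcases this with h | h | h | h <;> rw [h] <;> simp [wt])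
    rw [dat_num hP ((hW.loc i hi).t2 h1 h2)]
  set p := dat tok L v (i + 1) with hp
  set q := dat tok L v (nxt tok L (i + 1)) with hq
  have cases13 : tok i = 0 ∨ tok i = 1 ∨ tok i = 2 ∨ tok i = 3 ∨ tok i = 4 ∨ tok i = 5 ∨
      tok i = 6 ∨ tok i = 7 ∨ tok i = 8 ∨ tok i = 9 ∨ tok i = 10 ∨ tok i = 11 ∨ tok i = 12 := by
    omega
  rcases cases13 with h | h | h | h | h | h | h | h | h | h | h | h | h
  · have hd : dat tok L v i = (0, 0) := by
      rw [dat_num hi (by omega), numv]
      simp [h]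
    rw [hd] at z5
    rw [h]
    interval_cases e <;> simp [leq, pref, desc, tab, rval, z5]
  · have hd : dat tok L v i = (2 * p.1, 0) := by
      rw [dat_num hi (by omega), numv, hnum (by omega) (by omega)]
      simp [hi, h]
    have s2 : slot tok L v i 2 = p.1 + p.1 := by simp [slot, h, ← hp]
    rw [hd] at z5
    rw [s2] at a2
    rw [h]
    interval_cases e <;> simp [leq, pref, desc, tab, rval, z5, z1, a2]
    ring
  · have hd : dat tok L v i = (2 * p.1 + 1, 0) := by
      rw [dat_num hi (by omega), numv, hnum (by omega) (by omega)]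
      simp [hi, h]
    have s2 : slot tok L v i 2 = p.1 + p.1 := by simp [slot, h, ← hp]
    rw [hd] at z5
    rw [s2] at a2
    rw [h]
    interval_cases e <;> simp [leq, pref, desc, tab, rval, z5, z1, a2]
    ring
  · rw [h]
    interval_cases e <;> simp [leq, pref, desc, tab, rval]
  · have hd : dat tok L v i = (p.1, 0) := by
      rw [dat, hnum (by omega) (by omega)]
      simp [hi, h]
    rw [hd] at z5
    rw [h]
    interval_cases e <;> simp [leq, pref, desc, tab, rval, z5, z1]
  · have hd : dat tok L v i = (p.1 + q.1, 0) := by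
      rw [dat]
      simp [hi, h, ← hp, ← hq]
    rw [hd] at z5
    rw [h]
    interval_cases e <;> simp [leq, pref, desc, tab, rval, z5, z1, z2]
  · have hd : dat tok L v i = (p.1 - q.1, 0) := by
      rw [dat]
      simp [hi, h, ← hp, ← hq]
    rw [hd] at z5
    rw [h]
    interval_cases e <;> simp [leq, pref, desc, tab, rval, z5, z1, z2]
  · have hd : dat tok L v i = (p.1 * q.1, 0) := by
      rw [dat]
      simp [hi, h, ← hp, ← hq]
    rw [hd] at z5
    rw [h]
    interval_cases e <;> simp [leq, pref, desc, tab, rval, z5, z1, z2]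
  · have hd : dat tok L v i =
        ((Real.sqrt (q.1 - p.1))⁻¹ * (Real.sqrt (q.1 - p.1))⁻¹ * (q.1 - p.1) - 1,
          (p.1 - q.1) - Real.sqrt (p.1 - q.1) * Real.sqrt (p.1 - q.1)) := by
      rw [dat]
      simp only [hi, h, ← hp, ← hq, dif_pos]
      norm_num
    have s2 : slot tok L v i 2 = (Real.sqrt (q.1 - p.1))⁻¹ := by simp [slot, h, ← hp, ← hq]
    have s3 : slot tok L v i 3 =
        (Real.sqrt (q.1 - p.1))⁻¹ * (Real.sqrt (q.1 - p.1))⁻¹ * (q.1 - p.1) := by
      simp [slot, h, ← hp, ← hq]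
    have s4 : slot tok L v i 4 = (Real.sqrt (q.1 - p.1))⁻¹ * (Real.sqrt (q.1 - p.1))⁻¹ := by
      simp [slot, h, ← hp, ← hq]
    have s5 : slot tok L v i 5 = q.1 - p.1 := by simp [slot, ← hp, ← hq]
    have s6 : slot tok L v i 6 = Real.sqrt (p.1 - q.1) := by simp [slot, ← hp, ← hq]
    have s7 : slot tok L v i 7 = Real.sqrt (p.1 - q.1) * Real.sqrt (p.1 - q.1) := by
      simp only [slot, ← hp, ← hq]; norm_num
    have s8 : slot tok L v i 8 = p.1 - q.1 := by simp [slot, ← hp, ← hq]
    rw [hd] at z5 z6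
    rw [s2] at a2
    rw [s3] at a3
    rw [s4] at a4
    rw [s5] at a5
    rw [s6] at a6
    rw [s7] at a7
    rw [s8] at a8
    generalize (Real.sqrt (q.1 - p.1))⁻¹ = r1 at *
    generalize Real.sqrt (p.1 - q.1) = r2 at *
    rw [h]
    interval_cases e <;>
      simp only [leq, pref, desc, tab, rval, List.getD_cons_zero, List.getD_cons_succ] <;>
      norm_num [rval, z5, z6, z1, z2, a2, a3, a4, a5, a6, a7, a8]
  · have hd : dat tok L v i = (p.1 - q.1, (p.1 - q.1) * (p.1 - q.1)⁻¹ - 1) := by
      rw [dat]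
      simp only [hi, h, ← hp, ← hq, dif_pos]
      norm_num
    have s2 : slot tok L v i 2 = (p.1 - q.1)⁻¹ := by simp [slot, h, ← hp, ← hq]
    have s3 : slot tok L v i 3 = (p.1 - q.1) * (p.1 - q.1)⁻¹ := by
      simp only [slot, h, ← hp, ← hq]; norm_num
    rw [hd] at z5 z6
    rw [s2] at a2
    rw [s3] at a3
    generalize (p.1 - q.1)⁻¹ = r1 at *
    rw [h]
    interval_cases e <;>
      simp only [leq, pref, desc, tab, rval, List.getD_cons_zero, List.getD_cons_succ] <;>
      norm_num [rval, z5, z6, z1, z2, a2, a3]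
  · have hd : dat tok L v i = (p.2, p.1) := by
      rw [dat]
      simp [hi, h, ← hp]
    rw [hd] at z5 z6
    rw [h]
    interval_cases e <;> simp [leq, pref, desc, tab, rval, z5, z6, z1, z3]
  · have hd : dat tok L v i = (p.1 * p.1 + q.1 * q.1, p.2 * q.2) := by
      rw [dat]
      simp [hi, h, ← hp, ← hq]
    have s3 : slot tok L v i 3 = q.1 * q.1 := by simp [slot, h, ← hq]
    have s4 : slot tok L v i 4 = p.1 * p.1 := by simp [slot, h, ← hp]
    rw [hd] at z5 z6
    rw [s3] at a3
    rw [s4] at a4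
    rw [h]
    interval_cases e <;> simp [leq, pref, desc, tab, rval, z5, z6, z1, z2, z3, z4, a3, a4]
  · have hd : dat tok L v i = (p.1 * q.1, p.2 * p.2 + q.2 * q.2) := by
      rw [dat]
      simp [hi, h, ← hp, ← hq]
    have s3 : slot tok L v i 3 = q.2 * q.2 := by simp [slot, h, ← hq]
    have s4 : slot tok L v i 4 = p.2 * p.2 := by simp [slot, h, ← hp]
    rw [hd] at z5 z6
    rw [s3] at a3
    rw [s4] at a4
    rw [h]
    interval_cases e <;> simp [leq, pref, desc, tab, rval, z5, z6, z1, z2, z3, z4, a3, a4]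

lemma numv_seg (n : ℕ) : ∀ i, Seg tok i (numToks n) → i + (numToks n).length ≤ L →
    numv tok L i = n := by
  induction n using num_ind with
  | h0 =>
    intro i h hL
    rw [numToks_zero] at h
    rw [numv]
    simp [(seg_cons.1 h).1]
  | h1 n ih =>
    intro i h hL
    rw [numToks_odd] at h hL
    rw [List.length_cons] at hL
    obtain ⟨h0, h1⟩ := seg_cons.1 h
    rw [numv, ih (i + 1) h1 (by omega)]
    have : i < L := by omega
    simp [h0, this]
  | h2 n hn ih =>
    intro i h hL
    rw [numToks_even n hn] at h hL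
    rw [List.length_cons] at hL
    obtain ⟨h0, h1⟩ := seg_cons.1 h
    rw [numv, ih (i + 1) h1 (by omega)]
    have : i < L := by omega
    simp [h0, this]

lemma bin_seg {i a : ℕ} {l m : List ℕ} (h : Seg tok i (a :: (l ++ m))) (hb : Bal l)
    (hL : i + (a :: (l ++ m)).length ≤ L) :
    i < L ∧ tok i = a ∧ Seg tok (i + 1) l ∧ nxt tok L (i + 1) = i + 1 + l.length ∧
      Seg tok (nxt tok L (i + 1)) m ∧ i + 1 + l.length ≤ L ∧
      nxt tok L (i + 1) + m.length ≤ L := by
  rw [List.length_cons, List.length_append] at hL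
  obtain ⟨h0, h1⟩ := seg_cons.1 h
  obtain ⟨h2, h3⟩ := seg_append.1 h1
  have hn : nxt tok L (i + 1) = i + 1 + l.length := nxt_seg h2 hb (by omega)
  refine ⟨by omega, h0, h2, hn, ?_, by omega, by omega⟩
  rw [hn]; exact h3

lemma tm_val (t : Tm) : ∀ i, Seg tok i (tmToks t) → i + (tmToks t).length ≤ L →
    (dat tok L v i).1 = t.val v := by
  induction t with
  | var n =>
    intro i h hL
    obtain ⟨h0, h1⟩ := seg_cons.1 h
    have hL' : i + ((numToks n).length + 1) ≤ L := by simpa [tmToks] using hL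
    have hi : i < L := by omega
    have e : numv tok L (i + 1) = n := numv_seg n (i + 1) h1 (by omega)
    rw [dat]
    simp [hi, h0, e, Tm.val]
  | num n =>
    intro i h hL
    obtain ⟨h0, h1⟩ := seg_cons.1 h
    have hL' : i + ((numToks n).length + 1) ≤ L := by simpa [tmToks] using hL
    have hi : i < L := by omega
    have e : numv tok L (i + 1) = n := numv_seg n (i + 1) h1 (by omega)
    rw [dat]
    simp [hi, h0, e, Tm.val]
  | add s t ihs iht =>
    intro i h hL
    obtain ⟨hi, h0, h1, _, h3, h4, h5⟩ := bin_seg h (tmBal s) hL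
    rw [dat]
    simp [hi, h0, ihs _ h1 h4, iht _ h3 h5, Tm.val]
  | sub s t ihs iht =>
    intro i h hL
    obtain ⟨hi, h0, h1, _, h3, h4, h5⟩ := bin_seg h (tmBal s) hL
    rw [dat]
    simp [hi, h0, ihs _ h1 h4, iht _ h3 h5, Tm.val]
  | mul s t ihs iht =>
    intro i h hL
    obtain ⟨hi, h0, h1, _, h3, h4, h5⟩ := bin_seg h (tmBal s) hL
    rw [dat]
    simp [hi, h0, ihs _ h1 h4, iht _ h3 h5, Tm.val]

lemma inv_sqrt_mul (d : ℝ) (hd : 0 < d) : (Real.sqrt d)⁻¹ * (Real.sqrt d)⁻¹ * d - 1 = 0 := by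
  have h1 : Real.sqrt d * Real.sqrt d = d := Real.mul_self_sqrt hd.le
  have h2 : Real.sqrt d ≠ 0 := (Real.sqrt_pos.2 hd).ne'
  rw [← mul_inv, h1, inv_mul_cancel₀ hd.ne', sub_self]

lemma fm_val (f : Fml) : ∀ i, Seg tok i (fmToks f) → i + (fmToks f).length ≤ L →
    (f.holds v → (dat tok L v i).1 = 0) ∧ (¬ f.holds v → (dat tok L v i).2 = 0) := by
  induction f with
  | lt s t =>
    intro i h hL
    obtain ⟨hi, h0, h1, _, h3, h4, h5⟩ := bin_seg h (tmBal s) hL
    rw [dat]
    simp only [hi, h0, tm_val s _ h1 h4, tm_val t _ h3 h5, Fml.holds, dif_pos]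
    norm_num
    constructor
    · intro hlt
      exact inv_sqrt_mul _ (by linarith)
    · intro hle
      have := Real.mul_self_sqrt (by linarith : 0 ≤ s.val v - t.val v)
      linarith
  | eq s t =>
    intro i h hL
    obtain ⟨hi, h0, h1, _, h3, h4, h5⟩ := bin_seg h (tmBal s) hL
    rw [dat]
    simp only [hi, h0, tm_val s _ h1 h4, tm_val t _ h3 h5, Fml.holds, dif_pos]
    norm_num
    constructor
    · intro heq
      linarith
    · intro hne
      rw [mul_inv_cancel₀ (sub_ne_zero.2 hne), sub_self]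
  | not f ih =>
    intro i h hL
    obtain ⟨h0, h1⟩ := seg_cons.1 h
    have hL' : i + ((fmToks f).length + 1) ≤ L := by simpa [fmToks] using hL
    have hi : i < L := by omega
    obtain ⟨k1, k2⟩ := ih (i + 1) h1 (by omega)
    rw [dat]
    simp only [hi, h0, Fml.holds, dif_pos]
    norm_num
    exact ⟨k2, k1⟩
  | and f g ihf ihg =>
    intro i h hL
    obtain ⟨hi, h0, h1, _, h3, h4, h5⟩ := bin_seg h (fmBal f) hL
    obtain ⟨k1, k2⟩ := ihf _ h1 h4
    obtain ⟨k3, k4⟩ := ihg _ h3 h5
    rw [dat]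
    simp only [hi, h0, Fml.holds, dif_pos]
    norm_num
    constructor
    · intro hf hg
      rw [k1 hf, k3 hg]
      ring
    · intro hfg
      by_cases hf : f.holds v
      · exact Or.inr (k4 (hfg hf))
      · exact Or.inl (k2 hf)
  | or f g ihf ihg =>
    intro i h hL
    obtain ⟨hi, h0, h1, _, h3, h4, h5⟩ := bin_seg h (fmBal f) hL
    obtain ⟨k1, k2⟩ := ihf _ h1 h4
    obtain ⟨k3, k4⟩ := ihg _ h3 h5
    rw [dat]
    simp only [hi, h0, Fml.holds, dif_pos]
    norm_num
    constructor
    · rintro (hf | hg)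
      · exact Or.inl (k1 hf)
      · exact Or.inr (k3 hg)
    · intro hf hg
      rw [k2 hf, k4 hg]
      ring

lemma pair_all (hW : WF tok L) (i i' : ℕ) (hi : i < L) (hi' : i' < L) (h : Same tok L i i') :
    asg tok L v (16 * i) = asg tok L v (16 * i') := by
  obtain ⟨h1, h2, h3⟩ := h
  have hP := next_lt hW hi (by rw [h1]; simp [wt])
  obtain ⟨n, hn1, hn2⟩ := num_parse hW L (i + 1) hP (by omega)
    ((hW.loc i hi).t2 (by omega) (by omega))
  have hsi : Seg tok i (3 :: numToks n) := seg_cons.2 ⟨h1, hn1⟩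
  have hb : Bal (3 :: numToks n) := bal_unary 3 (by simp [wt]) (numBal n)
  have hlen : (3 :: numToks n).length ≤ L := by rw [List.length_cons]; omega
  have ni := nxt_seg hsi hb hlen
  have hlt' := lt_nxt tok L i'
  have ht0 : tok i' = 3 := by
    have := h3 0 (by omega)
    simpa [h1] using this.symm
  have hsi' : Seg tok i' (3 :: numToks n) := by
    intro t ht
    rw [← h3 t (by omega), hsi t ht]
  have hn1' := (seg_cons.1 hsi').2
  -- the second string ends before `L`
  have hP' := next_lt hW hi' (by rw [ht0]; simp [wt])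
  obtain ⟨m, hm1, hm2⟩ := num_parse hW L (i' + 1) hP' (by omega)
    ((hW.loc i' hi').t2 (by omega) (by omega))
  have ni' := nxt_seg (seg_cons.2 ⟨ht0, hm1⟩) (bal_unary 3 (by simp [wt]) (numBal m))
    (by rw [List.length_cons]; omega : (3 :: numToks m).length ≤ L)
  rw [List.length_cons] at ni ni'
  have hn2' : i' + 1 + (numToks n).length ≤ L := by omega
  have e1 : numv tok L (i + 1) = n := numv_seg n (i + 1) hn1 hn2
  have e2 : numv tok L (i' + 1) = n := numv_seg n (i' + 1) hn1' hn2'
  have d1 : (dat tok L v i).1 = v n := by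
    rw [dat]
    simp [hi, h1, e1]
  have d2 : (dat tok L v i').1 = v n := by
    rw [dat]
    simp [hi', ht0, e2]
  rw [asg_zero, asg_zero, d1, d2]

theorem complete (hW : WF tok L) (f : Fml) (hf : Seg tok 0 (fmToks f)) (hL : (fmToks f).length = L)
    (hv : f.holds v) : AllSat (asg tok L v) tok L := by
  refine ⟨fun i hi e he => leq_all hW i hi e he, fun i hi i' hi' h => pair_all hW i i' hi hi' h, ?_⟩
  have := asg_zero tok L v 0
  rw [Nat.mul_zero] at this
  rw [this]
  exact (fm_val f 0 hf (by omega)).1 hv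

end Pool.Agent.helper98.Tsei
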