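import Mathlib
import Pool.Agent.helper98.Tsei.Comp
import Pool.Agent.H54.PT.Enc

/-! # Formulas to quadratic systems in polynomial time -/

set_option autoImplicit false

namespace Pool.Agent.helper98.Tsei

open Pool.Agent.helper56.SGE Pool.Agent.helper56.SGE.QSys N68a2faeb N793a5b8e Pool.Agent.H54.PT

/-! ### Words and letters -/

/-- the letter number `i` of a word -/
def tokw (x : List Bool) (i : ℕ) : ℕ :=
  (x.getD (4 * i) false).toNat + 2 * (x.getD (4 * i + 1) false).toNat +
    4 * (x.getD (4 * i + 2) false).toNat + 8 * (x.getD (4 * i + 3) false).toNat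

lemma tokw_cons (a b c d : Bool) (y : List Bool) (i : ℕ) :
    tokw (a :: b :: c :: d :: y) (i + 1) = tokw y i := by
  unfold tokw
  have e0 : 4 * (i + 1) = 4 * i + 1 + 1 + 1 + 1 := by ring
  rw [e0]
  simp only [List.getD_cons_succ]

lemma letter_tokw (a b c d : Bool) (y : List Bool) :
    letter (tokw (a :: b :: c :: d :: y) 0) = [a, b, c, d] := by
  unfold tokw
  simp only [Nat.mul_zero, Nat.zero_add, List.getD_cons_succ, List.getD_cons_zero]
  cases a <;> cases b <;> cases c <;> cases d <;> decide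

lemma tokw_letter (k : ℕ) (hk : k < 16) (y : List Bool) : tokw (letter k ++ y) 0 = k := by
  unfold tokw letter
  simp only [List.cons_append, List.nil_append, Nat.mul_zero, Nat.zero_add, List.getD_cons_succ,
    List.getD_cons_zero]
  interval_cases k <;> decide

lemma word_eq (L : ℕ) : ∀ x : List Bool, x.length = 4 * L →
    x = ((List.range L).map (tokw x)).flatMap letter := by
  induction L with
  | zero => intro x h; simpa using h
  | succ L ih =>
    intro x h
    match x, h with
    | a :: b :: c :: d :: y, h =>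
      have hy : y.length = 4 * L := by simp at h; omega
      have h1 := ih y hy
      rw [List.range_succ_eq_map, List.map_cons, List.flatMap_cons, letter_tokw, List.map_map]
      have h2 : (tokw (a :: b :: c :: d :: y) ∘ Nat.succ) = tokw y := by
        funext i
        exact tokw_cons a b c d y i
      rw [h2, ← h1]
      rfl
    | [], h => simp at h
    | [_], h => simp at h; omega
    | [_, _], h => simp at h; omega
    | [_, _, _], h => simp at h; omega

lemma tokw_flatMap (l : List ℕ) (hl : ∀ a ∈ l, a < 16) : ∀ i, (h : i < l.length) →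
    tokw (l.flatMap letter) i = l[i] := by
  induction l with
  | nil => intro i h; simp at h
  | cons a l ih =>
    intro i h
    rw [List.flatMap_cons]
    cases i with
    | zero =>
      rw [tokw_letter a (hl a (by simp))]
      rfl
    | succ i =>
      have : letter a ++ l.flatMap letter = a.testBit 0 :: a.testBit 1 :: a.testBit 2 ::
        a.testBit 3 :: l.flatMap letter := rfl
      rw [this, tokw_cons, ih (fun b hb => hl b (by simp [hb])) i (by simpa using h)]
      rfl

lemma length_flatMap_letter (l : List ℕ) : (l.flatMap letter).length = 4 * l.length := by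
  induction l with
  | nil => rfl
  | cons a l ih =>
    rw [List.flatMap_cons, List.length_append, ih, List.length_cons]
    simp [letter]
    ring

lemma numToks_lt (n : ℕ) : ∀ a ∈ numToks n, a < 16 := by
  intro a ha
  unfold numToks at ha
  rw [List.mem_append, List.mem_map] at ha
  rcases ha with ⟨b, _, hb⟩ | ha
  · cases b <;> simp at hb <;> omega
  · simp at ha; omega

lemma tmToks_lt (t : Tm) : ∀ a ∈ tmToks t, a < 16 := by
  induction t with
  | var i =>
    intro a ha
    rcases List.mem_cons.1 ha with h | h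
    · omega
    · exact numToks_lt i a h
  | num i =>
    intro a ha
    rcases List.mem_cons.1 ha with h | h
    · omega
    · exact numToks_lt i a h
  | add s t ihs iht =>
    intro a ha
    rcases List.mem_cons.1 ha with h | h
    · omega
    · rcases List.mem_append.1 h with h | h
      · exact ihs a h
      · exact iht a h
  | sub s t ihs iht =>
    intro a ha
    rcases List.mem_cons.1 ha with h | h
    · omega
    · rcases List.mem_append.1 h with h | h
      · exact ihs a h
      · exact iht a h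
  | mul s t ihs iht =>
    intro a ha
    rcases List.mem_cons.1 ha with h | h
    · omega
    · rcases List.mem_append.1 h with h | h
      · exact ihs a h
      · exact iht a h

lemma fmToks_lt (f : Fml) : ∀ a ∈ fmToks f, a < 16 := by
  induction f with
  | lt s t =>
    intro a ha
    rcases List.mem_cons.1 ha with h | h
    · omega
    · rcases List.mem_append.1 h with h | h
      · exact tmToks_lt s a h
      · exact tmToks_lt t a h
  | eq s t =>
    intro a ha
    rcases List.mem_cons.1 ha with h | h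
    · omega
    · rcases List.mem_append.1 h with h | h
      · exact tmToks_lt s a h
      · exact tmToks_lt t a h
  | not f ih =>
    intro a ha
    rcases List.mem_cons.1 ha with h | h
    · omega
    · exact ih a h
  | and s t ihs iht =>
    intro a ha
    rcases List.mem_cons.1 ha with h | h
    · omega
    · rcases List.mem_append.1 h with h | h
      · exact ihs a h
      · exact iht a h
  | or s t ihs iht =>
    intro a ha
    rcases List.mem_cons.1 ha with h | h
    · omega
    · rcases List.mem_append.1 h with h | h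
      · exact ihs a h
      · exact iht a h

/-- number of letters -/
def len (x : List Bool) : ℕ := x.length / 4

/-- syntactically correct words -/
def Good (x : List Bool) : Prop := x.length = 4 * len x ∧ WF (tokw x) (len x)

theorem etr_iff (w : List Bool) : ETR w = true ↔ Good w ∧ ∃ u, AllSat u (tokw w) (len w) := by
  unfold ETR
  simp only [decide_eq_true_eq]
  constructor
  · rintro ⟨f, hf, x, hx⟩
    rw [fmCode_eq] at hf
    have h1 : w.length = 4 * (fmToks f).length := by rw [← hf, length_flatMap_letter]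
    have h2 : len w = (fmToks f).length := by unfold len; omega
    have h3 : Seg (tokw w) 0 (fmToks f) := by
      intro i hi
      rw [Nat.zero_add, ← hf]
      exact tokw_flatMap _ (fmToks_lt f) i hi
    have h4 := wf_of_code f h3
    rw [← h2] at h4
    exact ⟨⟨by rw [h2]; exact h1, h4⟩, _, complete h4 f h3 h2.symm hx⟩
  · rintro ⟨⟨h1, h2⟩, u, hu⟩
    obtain ⟨f, h3, h4, h5⟩ := sound h2 hu
    refine ⟨f, ?_, _, h5⟩
    rw [fmCode_eq, word_eq (len w) w h1]
    congr 1
    apply List.ext_getElem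
    · simp [h4]
    · intro i hi hi'
      have := h3 i hi
      rw [Nat.zero_add] at this
      rw [← this]
      simp

/-! ### The system -/

open Classical in
/-- references of the system of a word -/
noncomputable def lref (tok : ℕ → ℕ) (L k c : ℕ) : ℕ :=
  if k < 8 * L then pref (k / 8) (k / 8 + 1) (nxt tok L (k / 8 + 1)) (desc (tok (k / 8)) (k % 8) c)
  else if k < 8 * L + L * L then
    (if Same tok L ((k - 8 * L) / L) ((k - 8 * L) % L) then
      (if c = 0 then 16 * ((k - 8 * L) / L) + 2 else if c = 1 then 1 else if c = 2 then 0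
        else 16 * ((k - 8 * L) % L) + 2)
      else 0)
  else (if c = 0 then 2 else if c = 1 then 1 else 0)

lemma lref_pair {tok : ℕ → ℕ} {L i i' : ℕ} (hi : i < L) (hi' : i' < L) (hs : Same tok L i i')
    (c : ℕ) : lref tok L (8 * L + (i * L + i')) c =
      if c = 0 then 16 * i + 2 else if c = 1 then 1 else if c = 2 then 0 else 16 * i' + 2 := by
  have hLpos : 0 < L := by omega
  have hb : i * L + i' < L * L := by nlinarith
  have e0 : 8 * L + (i * L + i') - 8 * L = i * L + i' := by omega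
  have e1 : (i * L + i') / L = i := by
    rw [Nat.add_comm, Nat.add_mul_div_right _ _ hLpos, Nat.div_eq_of_lt hi', Nat.zero_add]
  have e2 : (i * L + i') % L = i' := by
    rw [Nat.add_comm, Nat.add_mul_mod_self_right, Nat.mod_eq_of_lt hi']
  unfold lref
  rw [if_neg (by omega), if_pos (by omega), e0, e1, e2, if_pos hs]

lemma wt_le_one (k : ℕ) : wt k ≤ 1 := by
  unfold wt
  split_ifs <;> norm_num

lemma exists_step (tok : ℕ → ℕ) (c : ℤ) (j : ℕ) : ∀ d, pw tok j < c → c ≤ pw tok (j + d) →
    ∃ k, j < k ∧ k ≤ j + d ∧ pw tok k = c := by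
  intro d
  induction d with
  | zero => intro h1 h2; rw [Nat.add_zero] at h2; omega
  | succ d ih =>
    intro h1 h2
    rcases le_or_gt c (pw tok (j + d)) with h3 | h3
    · obtain ⟨k, h4, h5, h6⟩ := ih h1 h3
      exact ⟨k, h4, by omega, h6⟩
    · refine ⟨j + (d + 1), by omega, le_rfl, ?_⟩
      rw [← add_assoc, pw_succ] at h2 ⊢
      have := wt_le_one (tok (j + d))
      omega

lemma nxt_lt {tok : ℕ → ℕ} {L : ℕ} (hW : WF tok L) {i : ℕ} (hi : i < L) (hw : wt (tok i) = -1) :
    nxt tok L (i + 1) < L := by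
  have h1 := next_lt hW hi (by omega)
  have h2 := hW.part i hi
  have h3 := pw_succ tok i
  have h4 := hW.total
  have hex : ∃ k, i + 1 < k ∧ pw tok k = pw tok (i + 1) + 1 := by
    obtain ⟨k, h5, _, h6⟩ := exists_step tok (pw tok (i + 1) + 1) (i + 1) (L - (i + 1)) (by omega)
      (by
        have : i + 1 + (L - (i + 1)) = L := by omega
        rw [this]; omega)
    exact ⟨k, h5, h6⟩
  have hlt : ∃ k, i + 1 < k ∧ k ≤ L ∧ pw tok k = pw tok (i + 1) + 1 :=
    by
      obtain ⟨k, h5, h7, h6⟩ := exists_step tok (pw tok (i + 1) + 1) (i + 1) (L - (i + 1)) (by omega)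
        (by
          have : i + 1 + (L - (i + 1)) = L := by omega
          rw [this]; omega)
      exact ⟨k, h5, by omega, h6⟩
  classical
  obtain ⟨k0, a1, a2, a3⟩ := hlt
  have hfs := Nat.find_spec hex
  have hfm : Nat.find hex ≤ k0 := Nat.find_min' hex ⟨a1, a3⟩
  have hn : nxt tok L (i + 1) = Nat.find hex := by
    apply nxt_eq hfs.1 (by omega) hfs.2
    intro k' hk1 hk2 hk3
    exact Nat.find_min hex hk2 ⟨hk1, hk3⟩
  rw [hn]
  rcases Nat.lt_or_ge (Nat.find hex) L with h | h
  · exact h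
  · exfalso
    have e : Nat.find hex = L := by omega
    have := hfs.2
    rw [e, h4] at this
    omega

set_option maxRecDepth 100000 in
lemma desc_tab' : ∀ (t : Fin 13) (e : Fin 8) (c : Fin 4), desc t e c < 50 ∧
    (18 ≤ desc t e c → (t : ℕ) ≠ 0) ∧ (34 ≤ desc t e c → 5 ≤ (t : ℕ) ∧ (t : ℕ) ≠ 10) := by
  decide

lemma desc_tab (t : ℕ) (ht : t < 13) (e : ℕ) (he : e < 8) (c : ℕ) (hc : c < 4) :
    desc t e c < 50 ∧ (18 ≤ desc t e c → t ≠ 0) ∧ (34 ≤ desc t e c → 5 ≤ t ∧ t ≠ 10) :=
  desc_tab' ⟨t, ht⟩ ⟨e, he⟩ ⟨c, hc⟩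

lemma pref_lt {L i P Q D : ℕ} (h0 : i < L) (hD : D < 50) (hP : 18 ≤ D → P < L)
    (hQ : 34 ≤ D → Q < L) : pref i P Q D < 16 * L + 2 := by
  unfold pref
  rcases Nat.lt_or_ge D 2 with h | h
  · rw [if_pos h]; omega
  · rw [if_neg (by omega)]
    rcases Nat.lt_or_ge D 18 with h1 | h1
    · have : (D - 2) / 16 = 0 := by omega
      rw [if_pos this]
      omega
    · rw [if_neg (by omega)]
      rcases Nat.lt_or_ge D 34 with h2 | h2
      · have : (D - 2) / 16 = 1 := by omega
        rw [if_pos this]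
        have := hP h1
        omega
      · rw [if_neg (by omega)]
        have := hQ h2
        omega

lemma lref_lt {tok : ℕ → ℕ} {L : ℕ} (hW : WF tok L) {k c : ℕ} (hc : c < 4) : lref tok L k c < 16 * L + 2 := by
  have hL := hW.pos
  unfold lref
  split_ifs with h1 h2 h3 h4 h5 h6 h7 h8
  · have hi : k / 8 < L := by omega
    obtain ⟨d1, d2, d3⟩ := desc_tab (tok (k / 8)) (by
      have := (hW.loc _ hi).bound
      omega) (k % 8) (by omega) c hc
    apply pref_lt hi d1
    · intro h
      apply next_lt hW hi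
      have h9 := d2 h
      unfold wt
      rw [if_neg h9]
      split_ifs <;> norm_num
    · intro h
      apply nxt_lt hW hi
      have h9 := d3 h
      unfold wt
      rw [if_neg (by omega), if_neg (by omega)]
  · have : (k - 8 * L) / L < L := by
      rw [Nat.div_lt_iff_lt_mul hL]
      omega
    omega
  · omega
  · omega
  · have : (k - 8 * L) % L < L := Nat.mod_lt _ hL
    omega
  all_goals omega

open Classical in
/-- the system of a word -/
noncomputable def sysOf (x : List Bool) : QSys :=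
  if Good x then ⟨16 * len x, 8 * len x + len x * len x + 1, lref (tokw x) (len x)⟩
  else ⟨0, 1, fun _ c => if c ≤ 1 then 1 else 0⟩

lemma sysOf_wf (x : List Bool) : (sysOf x).WF := by
  unfold sysOf
  split_ifs with h
  · intro k hk c hc
    exact lref_lt h.2 hc
  · intro k hk c hc
    show (if c ≤ 1 then 1 else 0) < 0 + 2
    split_ifs <;> norm_num

theorem sysOf_sat (x : List Bool) : (sysOf x).Sat ↔ Good x ∧ ∃ u, AllSat u (tokw x) (len x) := by
  unfold sysOf
  split_ifs with h
  · simp only [h, true_and]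
    set L := len x with hL
    set tok := tokw x with htok
    have hLpos : 0 < L := h.2.pos
    unfold Sat
    simp only [E]
    apply exists_congr
    intro u
    constructor
    · intro H
      refine ⟨fun i hi e he => ?_, fun i hi i' hi' hs => ?_, ?_⟩
      · have h1 := H (8 * i + e) (by
          have : 0 ≤ L * L := Nat.zero_le _
          omega)
        have e1 : (8 * i + e) / 8 = i := by omega
        have e2 : (8 * i + e) % 8 = e := by omega
        simp only [lref, e1, e2, if_pos (by omega : 8 * i + e < 8 * L)] at h1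
        exact h1
      · have hb : i * L + i' < L * L := by nlinarith
        have h1 := H (8 * L + (i * L + i')) (by omega)
        simp only [lref_pair hi hi' hs] at h1
        norm_num [rval] at h1
        linarith
      · have h1 := H (8 * L + L * L) (by omega)
        simp only [lref, if_neg (by omega : ¬ 8 * L + L * L < 8 * L),
          if_neg (by omega : ¬ 8 * L + L * L < 8 * L + L * L)] at h1
        norm_num [rval] at h1
        exact h1
    · intro H k hk
      rcases Nat.lt_or_ge k (8 * L) with h1 | h1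
      · have h2 := H.loc (k / 8) (by omega) (k % 8) (by omega)
        simp only [lref, if_pos h1]
        exact h2
      · rcases Nat.lt_or_ge k (8 * L + L * L) with h2 | h2
        · by_cases hs : Same tok L ((k - 8 * L) / L) ((k - 8 * L) % L)
          · have h3 := H.pair _ (by
              rw [Nat.div_lt_iff_lt_mul hLpos]
              omega) _ (Nat.mod_lt _ hLpos) hs
            simp only [lref, if_neg (by omega : ¬ k < 8 * L), if_pos h2, if_pos hs]
            norm_num [rval]
            linarith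
          · simp only [lref, if_neg (by omega : ¬ k < 8 * L), if_pos h2, if_neg hs]
            norm_num [rval]
        · simp only [lref, if_neg (by omega : ¬ k < 8 * L),
            if_neg (by omega : ¬ k < 8 * L + L * L)]
          norm_num [rval]
          exact H.root
  · simp only [h, false_and, iff_false]
    rintro ⟨z, hz⟩
    have := hz 0 (by norm_num)
    norm_num [E, rval] at this

/-! ### Polynomial time -/

lemma cp_len : Cp (fun x _ => len x) := Cp.len.div (Cp.const 4)

lemma cp_tok : Cp (fun x v => tokw x (v 0)) := by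
  unfold tokw
  have h0 : Cp (fun _ v => 4 * v 0) := (Cp.const 4).mul (Cp.var 0)
  exact (((Cp.bit h0).add ((Cp.const 2).mul (Cp.bit (h0.add (Cp.const 1))))).add
    ((Cp.const 4).mul (Cp.bit (h0.add (Cp.const 2))))).add
    ((Cp.const 8).mul (Cp.bit (h0.add (Cp.const 3))))

/-- number of final letters before a position -/
def cA (tok : ℕ → ℕ) (k : ℕ) : ℕ := ((Finset.range k).filter (fun i => tok i = 0)).card

/-- number of binary letters before a position -/
def cB (tok : ℕ → ℕ) (k : ℕ) : ℕ :=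
  ((Finset.range k).filter (fun i => 5 ≤ tok i ∧ tok i ≠ 10)).card

lemma pw_eq (tok : ℕ → ℕ) (k : ℕ) : pw tok k = (cA tok k : ℤ) - cB tok k := by
  unfold pw cA cB
  rw [Finset.card_filter, Finset.card_filter]
  push_cast
  rw [← Finset.sum_sub_distrib]
  apply Finset.sum_congr rfl
  intro i _
  unfold wt
  by_cases h0 : tok i = 0
  · simp [h0]
  · by_cases h1 : 5 ≤ tok i ∧ tok i ≠ 10
    · rw [if_neg h0, if_neg (by omega), if_neg h0, if_pos h1]
      norm_num
    · rw [if_neg h0, if_pos (by omega), if_neg h0, if_neg h1]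
      norm_num

lemma cp_cA : Cp (fun x v => cA (tokw x) (v 0)) :=
  Cp.count (P := fun x _ i => tokw x i = 0) (Cp.var 0) (Cq.eq cp_tok (Cp.const 0))

lemma cp_cB : Cp (fun x v => cB (tokw x) (v 0)) :=
  Cp.count (P := fun x _ i => 5 ≤ tokw x i ∧ tokw x i ≠ 10) (Cp.var 0)
    ((Cq.le (Cp.const 5) cp_tok).and (Cq.ne cp_tok (Cp.const 10)))

lemma cq_pw : Cq (fun x v => pw (tokw x) (v 0) = pw (tokw x) (v 1) + 1) := by
  refine (Cq.eq (cp_cA.add (cp_cB.rename (· + 1)))
    (((cp_cA.rename (· + 1)).add cp_cB).add (Cp.const 1))).congr fun x v => ?_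
  rw [pw_eq, pw_eq]
  constructor
  · intro h
    have h' : (cA (tokw x) (v 0) : ℤ) + cB (tokw x) (v 1) =
      cA (tokw x) (v 1) + cB (tokw x) (v 0) + 1 := by exact_mod_cast h
    linarith
  · intro h
    have h' : (cA (tokw x) (v 0) : ℤ) + cB (tokw x) (v 1) =
      cA (tokw x) (v 1) + cB (tokw x) (v 0) + 1 := by linarith
    exact_mod_cast h'

lemma cp_nxt : Cp (fun x v => nxt (tokw x) (len x) (v 0)) := by
  unfold nxt
  refine ((Cp.var 0).add (Cp.const 1)).add (Cp.count
    (P := fun x v t => ∀ t' < t + 1, ¬ pw (tokw x) (v 0 + 1 + t') = pw (tokw x) (v 0) + 1)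
    cp_len ?_)
  refine Cq.all' (P := fun x v t' => ¬ pw (tokw x) (v 1 + 1 + t') = pw (tokw x) (v 1) + 1)
    ((Cp.var 0).add (Cp.const 1)) ?_
  exact (Cq.comp2 (g := fun x a b => pw (tokw x) a = pw (tokw x) b + 1) cq_pw
    (((Cp.var 2).add (Cp.const 1)).add (Cp.var 0)) (Cp.var 2)).not

lemma loc_iff (tok : ℕ → ℕ) (L i : ℕ) : Loc tok L i ↔
    (tok i ≤ 12 ∧ (tok i = 1 → 1 ≤ tok (i + 1)) ∧
      ((1 ≤ tok i ∧ tok i ≤ 4) → tok (i + 1) ≤ 2)) ∧
    ((5 ≤ tok i ∧ tok i ≤ 9) → (3 ≤ tok (i + 1) ∧ tok (i + 1) ≤ 7) ∧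
    (3 ≤ tok (nxt tok L (i + 1)) ∧ tok (nxt tok L (i + 1)) ≤ 7)) ∧
    (tok i = 10 → 8 ≤ tok (i + 1)) ∧
    (11 ≤ tok i → 8 ≤ tok (i + 1) ∧ 8 ≤ tok (nxt tok L (i + 1))) := by
  constructor
  · intro h
    exact ⟨⟨h.bound, h.t1, fun a => h.t2 a.1 a.2⟩, fun a => h.t5 a.1 a.2, h.t10, h.t11⟩
  · rintro ⟨⟨h1, h2, h3⟩, h4, h5, h6⟩
    exact ⟨h1, h2, fun a b => h3 ⟨a, b⟩, fun a b => h4 ⟨a, b⟩, h5, h6⟩

lemma cq_loc : Cq (fun x v => Loc (tokw x) (len x) (v 0)) := by
  have t0 : Cp (fun x v => tokw x (v 0)) := cp_tok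
  have t1 : Cp (fun x v => tokw x (v 0 + 1)) :=
    Cp.comp1 (g := fun x a => tokw x a) cp_tok ((Cp.var 0).add (Cp.const 1))
  have n1 : Cp (fun x v => nxt (tokw x) (len x) (v 0 + 1)) :=
    Cp.comp1 (g := fun x a => nxt (tokw x) (len x) a) cp_nxt ((Cp.var 0).add (Cp.const 1))
  have t2 : Cp (fun x v => tokw x (nxt (tokw x) (len x) (v 0 + 1))) :=
    Cp.comp1 (g := fun x a => tokw x a) cp_tok n1
  have c (n : ℕ) : Cp (fun _ _ => n) := Cp.const n
  refine Cq.congr ?_ (fun x v => (loc_iff (tokw x) (len x) (v 0)).symm)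
  refine Cq.and (Cq.and (Cq.le t0 (c 12)) (Cq.and (Cq.imp (Cq.eq t0 (c 1)) (Cq.le (c 1) t1))
    (Cq.imp (Cq.and (Cq.le (c 1) t0) (Cq.le t0 (c 4))) (Cq.le t1 (c 2))))) ?_
  refine Cq.and (Cq.imp (Cq.and (Cq.le (c 5) t0) (Cq.le t0 (c 9)))
    (Cq.and (Cq.and (Cq.le (c 3) t1) (Cq.le t1 (c 7))) (Cq.and (Cq.le (c 3) t2)
      (Cq.le t2 (c 7))))) ?_
  exact Cq.and (Cq.imp (Cq.eq t0 (c 10)) (Cq.le (c 8) t1))
    (Cq.imp (Cq.le (c 11) t0) (Cq.and (Cq.le (c 8) t1) (Cq.le (c 8) t2)))

lemma good_iff (x : List Bool) : Good x ↔ (x.length = 4 * len x ∧ 0 < len x) ∧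
    (cA (tokw x) (len x) = cB (tokw x) (len x) + 1 ∧
      ∀ k < len x, cA (tokw x) k ≤ cB (tokw x) k) ∧
    (8 ≤ tokw x 0 ∧ ∀ i < len x, Loc (tokw x) (len x) i) := by
  have e1 : pw (tokw x) (len x) = 1 ↔ cA (tokw x) (len x) = cB (tokw x) (len x) + 1 := by
    rw [pw_eq]; omega
  have e2 : ∀ k, pw (tokw x) k ≤ 0 ↔ cA (tokw x) k ≤ cB (tokw x) k := by
    intro k; rw [pw_eq]; omega
  constructor
  · rintro ⟨h1, h2⟩
    exact ⟨⟨h1, h2.pos⟩, ⟨e1.1 h2.total, fun k hk => (e2 k).1 (h2.part k hk)⟩, h2.root, h2.loc⟩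
  · rintro ⟨⟨h1, h2⟩, ⟨h3, h4⟩, h5, h6⟩
    exact ⟨h1, h2, e1.2 h3, fun k hk => (e2 k).2 (h4 k hk), h5, h6⟩

lemma cq_good : Cq (fun x _ => Good x) := by
  refine Cq.congr ?_ (fun x _ => (good_iff x).symm)
  refine Cq.and (Cq.and (Cq.eq Cp.len ((Cp.const 4).mul cp_len)) (Cq.lt (Cp.const 0) cp_len)) ?_
  refine Cq.and (Cq.and (Cq.eq ?_ (Cp.add ?_ (Cp.const 1))) ?_) (Cq.and ?_ ?_)
  · exact Cp.comp1 (g := fun x a => cA (tokw x) a) cp_cA cp_len
  · exact Cp.comp1 (g := fun x a => cB (tokw x) a) cp_cB cp_len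
  · exact Cq.all' (P := fun x _ k => cA (tokw x) k ≤ cB (tokw x) k) cp_len (Cq.le cp_cA cp_cB)
  · exact Cq.le (Cp.const 8) (Cp.comp1 (g := fun x a => tokw x a) cp_tok (Cp.const 0))
  · exact Cq.all' (P := fun x _ i => Loc (tokw x) (len x) i) cp_len cq_loc

lemma same_iff (tok : ℕ → ℕ) (L i i' : ℕ) : Same tok L i i' ↔ tok i = 3 ∧
    (nxt tok L i + i' = nxt tok L i' + i ∧ ∀ t < nxt tok L i - i, tok (i + t) = tok (i' + t)) :=
  Iff.rfl

lemma cq_same : Cq (fun x v => Same (tokw x) (len x) (v 0) (v 1)) := by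
  have n1 : Cp (fun x v => nxt (tokw x) (len x) (v 1)) := cp_nxt.rename (· + 1)
  refine Cq.and (Cq.eq cp_tok (Cp.const 3)) (Cq.and (Cq.eq (cp_nxt.add (Cp.var 1))
    (n1.add (Cp.var 0))) ?_)
  refine Cq.all' (P := fun x v t => tokw x (v 0 + t) = tokw x (v 1 + t)) (cp_nxt.sub (Cp.var 0)) ?_
  exact Cq.eq (Cp.comp1 (g := fun x a => tokw x a) cp_tok ((Cp.var 1).add (Cp.var 0)))
    (Cp.comp1 (g := fun x a => tokw x a) cp_tok ((Cp.var 2).add (Cp.var 0)))

lemma desc_eq (t e c : ℕ) : desc t e c =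
    if (if t < 13 ∧ e < 8 ∧ c < 4 then t * 32 + e * 4 + c else 416) < 416 then
      desc ((if t < 13 ∧ e < 8 ∧ c < 4 then t * 32 + e * 4 + c else 416) / 32)
        ((if t < 13 ∧ e < 8 ∧ c < 4 then t * 32 + e * 4 + c else 416) / 4 % 8)
        ((if t < 13 ∧ e < 8 ∧ c < 4 then t * 32 + e * 4 + c else 416) % 4) else 0 := by
  by_cases h : t < 13 ∧ e < 8 ∧ c < 4
  · rw [if_pos h, if_pos (by omega)]
    have e1 : (t * 32 + e * 4 + c) / 32 = t := by omega
    have e2 : (t * 32 + e * 4 + c) / 4 % 8 = e := by omega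
    have e3 : (t * 32 + e * 4 + c) % 4 = c := by omega
    rw [e1, e2, e3]
  · rw [if_neg h, if_neg (by omega)]
    unfold desc
    rcases Nat.lt_or_ge t 13 with h1 | h1
    · rcases Nat.lt_or_ge e 8 with h2 | h2
      · have h3 : 4 ≤ c := by omega
        have : ∀ (t : Fin 13) (e : Fin 8), ((tab.getD t []).getD e []).length ≤ 4 := by decide
        exact List.getD_eq_default _ _ (le_trans (this ⟨t, h1⟩ ⟨e, h2⟩) h3)
      · have : ∀ (t : Fin 13), (tab.getD t []).length ≤ 8 := by decide
        rw [List.getD_eq_default (tab.getD t []) [] (le_trans (this ⟨t, h1⟩) h2)]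
        rfl
    · have : tab.length ≤ 13 := by decide
      rw [List.getD_eq_default tab [] (le_trans this h1)]
      rfl

lemma cp_desc : Cp (fun _ v => desc (v 0) (v 1) (v 2)) := by
  refine Cp.congr ?_ (fun _ v => (desc_eq (v 0) (v 1) (v 2)).symm)
  refine Cp.table 416 (fun n => desc (n / 32) (n / 4 % 8) (n % 4)) ?_
  exact Cp.ite (Cq.and (Cq.lt (Cp.var 0) (Cp.const 13)) (Cq.and (Cq.lt (Cp.var 1) (Cp.const 8))
    (Cq.lt (Cp.var 2) (Cp.const 4)))) ((((Cp.var 0).mul (Cp.const 32)).add
      ((Cp.var 1).mul (Cp.const 4))).add (Cp.var 2)) (Cp.const 416)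

lemma cp_pref : Cp (fun _ v => pref (v 0) (v 1) (v 2) (v 3)) := by
  unfold pref
  refine Cp.ite (Cq.lt (Cp.var 3) (Cp.const 2)) (Cp.var 3) ?_
  refine ((((Cp.const 16).mul ?_).add (((Cp.var 3).sub (Cp.const 2)).mod (Cp.const 16)))).add
    (Cp.const 2)
  refine Cp.ite (Cq.eq (((Cp.var 3).sub (Cp.const 2)).div (Cp.const 16)) (Cp.const 0)) (Cp.var 0)
    (Cp.ite (Cq.eq (((Cp.var 3).sub (Cp.const 2)).div (Cp.const 16)) (Cp.const 1)) (Cp.var 1)
      (Cp.var 2))

open Classical in
lemma cp_lref : Cp (fun x v => lref (tokw x) (len x) (v 0) (v 1)) := by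
  have c (n : ℕ) : Cp (fun _ _ => n) := Cp.const n
  have cL := cp_len
  have k8 : Cp (fun _ v => v 0 / 8) := (Cp.var 0).div (c 8)
  have k81 : Cp (fun _ v => v 0 / 8 + 1) := k8.add (c 1)
  have b1 : Cp (fun x _ => 8 * len x) := (c 8).mul cL
  have b2 : Cp (fun x _ => 8 * len x + len x * len x) := b1.add (cL.mul cL)
  have i1 : Cp (fun x v => (v 0 - 8 * len x) / len x) := ((Cp.var 0).sub b1).div cL
  have i2 : Cp (fun x v => (v 0 - 8 * len x) % len x) := ((Cp.var 0).sub b1).mod cL
  unfold lref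
  refine Cp.ite (Cq.lt (Cp.var 0) b1) ?_ (Cp.ite (Cq.lt (Cp.var 0) b2) (Cp.ite ?_ ?_ (c 0)) ?_)
  · refine Cp.comp4 (g := fun _ a b c d => pref a b c d) cp_pref k8 k81
      (Cp.comp1 (g := fun x a => nxt (tokw x) (len x) a) cp_nxt k81) ?_
    exact Cp.comp3 (g := fun _ a b c => desc a b c) cp_desc
      (Cp.comp1 (g := fun x a => tokw x a) cp_tok k8) ((Cp.var 0).mod (c 8)) (Cp.var 1)
  · exact Cq.comp2 (g := fun x a b => Same (tokw x) (len x) a b) cq_same i1 i2
  · exact Cp.ite (Cq.eq (Cp.var 1) (c 0)) (((c 16).mul i1).add (c 2))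
      (Cp.ite (Cq.eq (Cp.var 1) (c 1)) (c 1) (Cp.ite (Cq.eq (Cp.var 1) (c 2)) (c 0)
        (((c 16).mul i2).add (c 2))))
  · exact Cp.ite (Cq.eq (Cp.var 1) (c 0)) (c 2) (Cp.ite (Cq.eq (Cp.var 1) (c 1)) (c 1) (c 0))

open Classical in
/-- **Module M2.** -/
theorem M2 : ∃ F : List Bool → QSys, (∀ w, (F w).WF ∧ (ETR w = true ↔ (F w).Sat)) ∧
    Cp (fun x _ => (F x).nv) ∧ Cp (fun x _ => (F x).m) ∧
    Cp (fun x v => (F x).ref (v 0) (v 1)) := by
  refine ⟨sysOf, fun w => ⟨sysOf_wf w, ?_⟩, ?_, ?_, ?_⟩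
  · rw [etr_iff, sysOf_sat]
  · refine (Cp.ite cq_good ((Cp.const 16).mul cp_len) (Cp.const 0)).congr fun x v => ?_
    unfold sysOf
    split_ifs <;> rfl
  · refine (Cp.ite cq_good ((((Cp.const 8).mul cp_len).add (cp_len.mul cp_len)).add (Cp.const 1))
      (Cp.const 1)).congr fun x v => ?_
    unfold sysOf
    split_ifs <;> rfl
  · refine (Cp.ite cq_good cp_lref (Cp.ite (Cq.le (Cp.var 1) (Cp.const 1)) (Cp.const 1)
      (Cp.const 0))).congr fun x v => ?_
    unfold sysOf
    split_ifs <;> simp_all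

end Pool.Agent.helper98.Tsei
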